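import Pool.Agent.helper97.FP.Geo2

namespace FP97
noncomputable section
open Finset Module
open Pool.Agent.helper97.FP
open scoped LinearAlgebra.Projectivization

/-! ### good coordinates -/

lemma exists_avoid (Y : Finset (ℙ ℂ (Fin 2 → ℂ))) : ∃ t : ℂ, ∀ P ∈ Y, P.rep 0 + t * P.rep 1 ≠ 0 := by
  obtain ⟨t, ht⟩ := Infinite.exists_notMem_finset (Y.image fun P => -(P.rep 0 / P.rep 1))
  refine ⟨t, fun P hP h0 => ?_⟩
  by_cases h1 : P.rep 1 = 0
  · rw [h1, mul_zero, add_zero] at h0
    apply P.rep_nonzero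
    funext i
    fin_cases i
    · exact h0
    · exact h1
  · apply ht
    rw [Finset.mem_image]
    refine ⟨P, hP, ?_⟩
    field_simp
    linear_combination -h0

lemma exists_good (Y : Finset Point) : ∃ t s : ℂ, ∀ P ∈ Y, Good t s P := by
  classical
  obtain ⟨t, ht⟩ := exists_avoid (Y.image Prod.fst)
  obtain ⟨s, hs⟩ := exists_avoid (Y.image Prod.snd)
  exact ⟨t, s, fun P hP => ⟨ht _ (Finset.mem_image_of_mem _ hP), hs _ (Finset.mem_image_of_mem _ hP)⟩⟩

lemma proj_eq {P Q : ℙ ℂ (Fin 2 → ℂ)} {t : ℂ} (hP : P.rep 0 + t * P.rep 1 ≠ 0)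
    (hQ : Q.rep 0 + t * Q.rep 1 ≠ 0)
    (h : P.rep 1 / (P.rep 0 + t * P.rep 1) = Q.rep 1 / (Q.rep 0 + t * Q.rep 1)) : P = Q := by
  rw [← P.mk_rep, ← Q.mk_rep, Projectivization.mk_eq_mk_iff']
  refine ⟨(P.rep 0 + t * P.rep 1) / (Q.rep 0 + t * Q.rep 1), ?_⟩
  rw [div_eq_div_iff hP hQ] at h
  have h1 : P.rep 1 = (P.rep 0 + t * P.rep 1) / (Q.rep 0 + t * Q.rep 1) * Q.rep 1 := by
    rw [div_mul_eq_mul_div, eq_div_iff hQ]
    linear_combination h
  have h2 : P.rep 0 = (P.rep 0 + t * P.rep 1) / (Q.rep 0 + t * Q.rep 1) * Q.rep 0 := by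
    rw [div_mul_eq_mul_div, eq_div_iff hQ]
    linear_combination (-t) * h
  funext i
  fin_cases i
  · exact h2.symm
  · exact h1.symm

lemma aff_inj {t s : ℂ} {P Q : Point} (hP : Good t s P) (hQ : Good t s Q)
    (h : aff t s P = aff t s Q) : P = Q :=
  Prod.ext (proj_eq hP.1 hQ.1 (congrArg Prod.fst h)) (proj_eq hP.2 hQ.2 (congrArg Prod.snd h))

/-! ### vertical lines -/

/-- the vertical lines of a finite set in the affine plane -/
lemma exists_config (Z : Finset (ℂ × ℂ)) : ∃ (h : ℕ) (a : Fin h → ℂ) (B : Fin h → Finset ℂ),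
    Function.Injective a ∧ (∀ k, 1 ≤ (B k).card) ∧ (∑ k, (B k).card = Z.card) ∧
    ∀ z, z ∈ Z ↔ ∃ k, z.1 = a k ∧ z.2 ∈ B k := by
  classical
  let A := Z.image Prod.fst
  let e := A.equivFin
  let a : Fin A.card → ℂ := fun k => ((e.symm k : A) : ℂ)
  let B : Fin A.card → Finset ℂ := fun k => (Z.filter fun z => z.1 = a k).image Prod.snd
  have hB : ∀ k b, b ∈ B k ↔ (a k, b) ∈ Z := by
    intro k b
    simp only [B, Finset.mem_image, Finset.mem_filter]
    constructor
    · rintro ⟨⟨x, y⟩, ⟨h1, h2⟩, h3⟩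
      simp only at h2 h3
      subst h2 h3
      exact h1
    · intro h1
      exact ⟨(a k, b), ⟨h1, rfl⟩, rfl⟩
  refine ⟨A.card, a, B, ?_, ?_, ?_, ?_⟩
  · intro x y hxy
    exact e.symm.injective (Subtype.ext hxy)
  · intro k
    rw [Nat.one_le_iff_ne_zero, Finset.card_ne_zero]
    have := (e.symm k).2
    rw [Finset.mem_image] at this
    obtain ⟨⟨x, y⟩, hz1, hz2⟩ := this
    refine ⟨y, (hB k y).mpr ?_⟩
    have hz2' : x = a k := hz2
    rw [← hz2']; exact hz1
  · have h1 : ∀ k, (B k).card = (Z.filter fun z => z.1 = a k).card := by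
      intro k
      refine Finset.card_image_of_injOn ?_
      rintro ⟨x, y⟩ hx ⟨x', y'⟩ hx' hxy
      rw [Finset.mem_coe, Finset.mem_filter] at hx hx'
      exact Prod.ext (hx.2.trans hx'.2.symm) hxy
    have h2 : Z.card = ∑ x ∈ A, (Z.filter fun z => z.1 = x).card :=
      Finset.card_eq_sum_card_image Prod.fst Z
    rw [h2, ← Finset.sum_coe_sort A]
    rw [Finset.sum_congr rfl fun k _ => h1 k]
    exact (e.symm.sum_comp fun x : A => (Z.filter fun z => z.1 = (x : ℂ)).card)
  · intro z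
    constructor
    · intro hz
      have hzA : z.1 ∈ A := Finset.mem_image_of_mem _ hz
      refine ⟨e ⟨z.1, hzA⟩, ?_, ?_⟩
      · simp [a]
      · rw [hB]
        have : a (e ⟨z.1, hzA⟩) = z.1 := by simp [a]
        rw [this]; exact hz
    · rintro ⟨k, hk1, hk2⟩
      rw [hB, ← hk1] at hk2
      exact hk2

/-! ### the reference curve -/

open Polynomial in
lemma exists_ref {h : ℕ} {a : Fin h → ℂ} (ha : Function.Injective a) (B : Fin h → Finset ℂ) :
    ∃ p q : ℂ[X], IsCoprime p q ∧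
      2 * max p.natDegree q.natDegree + (Sing B).card ≤ 2 * (SH a B p q).card := by
  classical
  let β : Fin h → ℂ := fun k => if hk : (B k).Nonempty then hk.choose else 0
  have hβ : ∀ k ∈ Sing B, B k = {β k} := by
    intro k hk
    rw [mem_Sing] at hk
    obtain ⟨b, hb⟩ := Finset.card_eq_one.mp hk
    have hne : (B k).Nonempty := by rw [hb]; exact Finset.singleton_nonempty b
    have h1 : β k ∈ B k := by
      simp only [β, dif_pos hne]
      exact hne.choose_spec
    rw [hb, Finset.mem_singleton] at h1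
    rw [hb, h1]
  set u := (Sing B).card with hu
  let D := u / 2 + 1
  let f : (degreeLT ℂ D × degreeLT ℂ D) →ₗ[ℂ] (Sing B → ℂ) :=
    { toFun := fun x k => (x.2 : ℂ[X]).eval (a k) - β k * (x.1 : ℂ[X]).eval (a k)
      map_add' := fun x y => by
        funext k
        simp only [Prod.snd_add, Prod.fst_add, Submodule.coe_add, eval_add, Pi.add_apply]
        ring
      map_smul' := fun c x => by
        funext k
        simp only [Prod.smul_snd, Prod.smul_fst, Submodule.coe_smul, eval_smul, smul_eq_mul,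
          RingHom.id_apply, Pi.smul_apply]
        ring }
  have hfd : FiniteDimensional ℂ (degreeLT ℂ D) := (degreeLTEquiv ℂ D).symm.finiteDimensional
  have hker : LinearMap.ker f ≠ ⊥ := by
    apply LinearMap.ker_ne_bot_of_finrank_lt
    rw [Module.finrank_prod, finrank_degreeLT, Module.finrank_fintype_fun_eq_card,
      Fintype.card_coe]
    omega
  obtain ⟨x, hx1, hx2⟩ := Submodule.exists_mem_ne_zero_of_ne_bot hker
  set P : ℂ[X] := (x.1 : ℂ[X]) with hP
  set Q : ℂ[X] := (x.2 : ℂ[X]) with hQ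
  have hPQ : ∀ k ∈ Sing B, Q.eval (a k) = β k * P.eval (a k) := by
    intro k hk
    have := congrFun (LinearMap.mem_ker.mp hx1) ⟨k, hk⟩
    exact sub_eq_zero.mp this
  have hne : P ≠ 0 ∨ Q ≠ 0 := by
    by_contra hcon
    push Not at hcon
    apply hx2
    exact Prod.ext (Subtype.ext hcon.1) (Subtype.ext hcon.2)
  have hPd : P.natDegree ≤ u / 2 := natDegree_le_of_mem x.1.2
  have hQd : Q.natDegree ≤ u / 2 := natDegree_le_of_mem x.2.2
  set g := EuclideanDomain.gcd P Q with hg
  have hg0 : g ≠ 0 := by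
    intro h
    obtain ⟨h1, h2⟩ := EuclideanDomain.gcd_eq_zero_iff.mp h
    rcases hne with h3 | h3
    · exact h3 h1
    · exact h3 h2
  obtain ⟨p, hp⟩ := EuclideanDomain.gcd_dvd_left P Q
  obtain ⟨q, hq⟩ := EuclideanDomain.gcd_dvd_right P Q
  rw [← hg] at hp hq
  have hcop : IsCoprime p q := by
    refine ⟨EuclideanDomain.gcdA P Q, EuclideanDomain.gcdB P Q, ?_⟩
    have h1 := EuclideanDomain.gcd_eq_gcd_ab P Q
    rw [← hg] at h1
    refine mul_left_cancel₀ hg0 ?_
    calc g * (EuclideanDomain.gcdA P Q * p + EuclideanDomain.gcdB P Q * q)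
        = (g * p) * EuclideanDomain.gcdA P Q + (g * q) * EuclideanDomain.gcdB P Q := by ring
      _ = P * EuclideanDomain.gcdA P Q + Q * EuclideanDomain.gcdB P Q := by rw [← hp, ← hq]
      _ = g := h1.symm
      _ = g * 1 := (mul_one g).symm
  refine ⟨p, q, hcop, ?_⟩
  -- non-hit singles are zeros of `g`
  have h1 : (∏ k ∈ Sing B \ SH a B p q, (X - C (a k)) ^ ((fun _ => 1) k)) ∣ g := by
    rw [prod_pow_dvd _ a ha.injOn]
    intro k hk
    rw [Finset.mem_sdiff] at hk
    rw [pow_one, dvd_iff_isRoot, IsRoot.def]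
    have h2 := hPQ k hk.1
    rw [hp, hq, eval_mul, eval_mul] at h2
    have h3 : ¬ Hit a B p q k := fun hh => hk.2 (mem_SH.mpr ⟨mem_Sing.mp hk.1, hh⟩)
    rw [hit_single (hβ k hk.1)] at h3
    have h4 : g.eval (a k) * (q.eval (a k) - β k * p.eval (a k)) = 0 := by linear_combination h2
    exact (mul_eq_zero.mp h4).resolve_right (sub_ne_zero.mpr h3)
  have h2 := natDegree_le_of_dvd h1 hg0
  rw [natDegree_prod_pow, Finset.sum_const, smul_eq_mul, mul_one,
    Finset.card_sdiff_of_subset (SH_subset p q), ← hu] at h2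
  have h3 : p.natDegree + g.natDegree ≤ u / 2 := by
    by_cases hp0 : p = 0
    · rw [hp0, natDegree_zero, zero_add]
      have hq0 : q ≠ 0 := by
        rintro rfl
        rw [hp0] at hcop
        exact not_isCoprime_zero_zero hcop
      rw [hq, natDegree_mul hg0 hq0] at hQd
      omega
    · rw [hp, natDegree_mul hg0 hp0] at hPd
      omega
  have h4 : q.natDegree + g.natDegree ≤ u / 2 := by
    by_cases hq0 : q = 0
    · rw [hq0, natDegree_zero, zero_add]
      have hp0 : p ≠ 0 := by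
        rintro rfl
        rw [hq0] at hcop
        exact not_isCoprime_zero_zero hcop
      rw [hp, natDegree_mul hg0 hp0] at hPd
      omega
    · rw [hq, natDegree_mul hg0 hq0] at hQd
      omega
  have h5 := Finset.card_le_card (SH_subset (a := a) (B := B) p q)
  omega

/-- the affine form of the first half -/
theorem half_one (Z : Finset (ℂ × ℂ)) : ∃ (h : ℕ) (n : Fin h → ℕ) (S : Finset (Fin h)) (e : ℕ),
    Admissible n S e Z.card ∧ ∀ i j, (j ≤ 1 ∨ ∑ k, min 2 (n k) ≤ i + 1) →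
      (i + 1) * (j + 1) - finrank ℂ (DV (Z : Set (ℂ × ℂ)) i j) = Phi n S e i j := by
  obtain ⟨h, a, B, ha, hB, hsum, hZ⟩ := exists_config Z
  obtain ⟨p, q, hpq, href⟩ := exists_ref ha B
  refine ⟨h, fun k => (B k).card, HS a B p q, max p.natDegree q.natDegree,
    ⟨hB, hsum, ?_⟩, ?_⟩
  · have e1 : (Finset.univ.filter fun k => (B k).card = 1) = Sing B := rfl
    rw [e1, ← SH_eq]
    exact href
  · intro i j hij
    rw [DV_eq_WW (fun z => by rw [Finset.mem_coe]; exact hZ z)]
    exact main_aff ha hB hpq href i j hij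

/-- every configuration has data, in both directions -/
theorem part_one {r : ℕ} (Y : Finset Point) (hY : Y.card = r) :
    (∃ (h : ℕ) (n : Fin h → ℕ) (S : Finset (Fin h)) (e : ℕ), Admissible n S e r ∧
      ∀ i j, (j ≤ 1 ∨ ∑ k, min 2 (n k) ≤ i + 1) → hilbert (doubleIdeal Y) i j = Phi n S e i j) ∧
    (∃ (h : ℕ) (n : Fin h → ℕ) (S : Finset (Fin h)) (e : ℕ), Admissible n S e r ∧
      ∀ i j, (i ≤ 1 ∨ ∑ k, min 2 (n k) ≤ j + 1) → hilbert (doubleIdeal Y) i j = Phi n S e j i) := by
  classical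
  obtain ⟨t, s, hg⟩ := exists_good Y
  have hcard : (Y.image (aff t s)).card = r := by
    rw [Finset.card_image_of_injOn, hY]
    intro P hP Q hQ h
    exact aff_inj (hg P hP) (hg Q hQ) h
  have hset : {z | ∃ P ∈ Y, aff t s P = z} = ((Y.image (aff t s) : Finset (ℂ × ℂ)) : Set (ℂ × ℂ)) := by
    ext z; simp
  constructor
  · obtain ⟨h, n, S, e, h1, h2⟩ := half_one (Y.image (aff t s))
    rw [hcard] at h1
    refine ⟨h, n, S, e, h1, fun i j hij => ?_⟩
    rw [hilbert_eq_DV hg, hset]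
    exact h2 i j hij
  · obtain ⟨h, n, S, e, h1, h2⟩ := half_one ((Y.image (aff t s)).image Prod.swap)
    rw [Finset.card_image_of_injective _ Prod.swap_injective, hcard] at h1
    refine ⟨h, n, S, e, h1, fun i j hij => ?_⟩
    have hs : (Prod.swap ⁻¹' ((Y.image (aff t s) : Finset (ℂ × ℂ)) : Set (ℂ × ℂ))) =
        (((Y.image (aff t s)).image Prod.swap : Finset (ℂ × ℂ)) : Set (ℂ × ℂ)) := by
      ext z
      rw [Set.mem_preimage, Finset.mem_coe, Finset.mem_coe, Finset.mem_image (f := Prod.swap)]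
      constructor
      · intro hz
        exact ⟨z.swap, hz, Prod.swap_swap z⟩
      · rintro ⟨w, hw, rfl⟩
        rw [Prod.swap_swap]; exact hw
    rw [hilbert_eq_DV hg, hset, ← h2 j i hij, mul_comm, ← finrank_DV_swap, hs]

/-! ### construction -/

/-- a point of the affine chart -/
def pt (z : ℂ × ℂ) : Point :=
  (Projectivization.mk ℂ ![1, z.1] (fun h => one_ne_zero (congrFun h 0)),
    Projectivization.mk ℂ ![1, z.2] (fun h => one_ne_zero (congrFun h 0)))

lemma rep_mk (x : ℂ) (hx : (![1, x] : Fin 2 → ℂ) ≠ 0) : ∃ c : ℂ, c ≠ 0 ∧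
    (Projectivization.mk ℂ (![1, x] : Fin 2 → ℂ) hx).rep 0 = c ∧
    (Projectivization.mk ℂ (![1, x] : Fin 2 → ℂ) hx).rep 1 = c * x := by
  obtain ⟨c, hc⟩ := Projectivization.exists_smul_eq_mk_rep ℂ (![1, x] : Fin 2 → ℂ) hx
  refine ⟨c, c.ne_zero, ?_, ?_⟩
  · rw [← hc]; simp [Units.smul_def]
  · rw [← hc]; simp [Units.smul_def]

lemma pt_good (z : ℂ × ℂ) : Good 0 0 (pt z) ∧ aff 0 0 (pt z) = z := by
  obtain ⟨c, hc, h1, h2⟩ := rep_mk z.1 (fun h => one_ne_zero (congrFun h 0))
  obtain ⟨d, hd, h3, h4⟩ := rep_mk z.2 (fun h => one_ne_zero (congrFun h 0))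
  constructor
  · constructor
    · show (Projectivization.mk ℂ (![1, z.1] : Fin 2 → ℂ) _).rep 0 +
        0 * (Projectivization.mk ℂ (![1, z.1] : Fin 2 → ℂ) _).rep 1 ≠ 0
      rw [zero_mul, add_zero, h1]; exact hc
    · show (Projectivization.mk ℂ (![1, z.2] : Fin 2 → ℂ) _).rep 0 +
        0 * (Projectivization.mk ℂ (![1, z.2] : Fin 2 → ℂ) _).rep 1 ≠ 0
      rw [zero_mul, add_zero, h3]; exact hd
  · apply Prod.ext
    · show (Projectivization.mk ℂ (![1, z.1] : Fin 2 → ℂ) _).rep 1 /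
        ((Projectivization.mk ℂ (![1, z.1] : Fin 2 → ℂ) _).rep 0 +
        0 * (Projectivization.mk ℂ (![1, z.1] : Fin 2 → ℂ) _).rep 1) = z.1
      rw [zero_mul, add_zero, h1, h2]
      field_simp
    · show (Projectivization.mk ℂ (![1, z.2] : Fin 2 → ℂ) _).rep 1 /
        ((Projectivization.mk ℂ (![1, z.2] : Fin 2 → ℂ) _).rep 0 +
        0 * (Projectivization.mk ℂ (![1, z.2] : Fin 2 → ℂ) _).rep 1) = z.2
      rw [zero_mul, add_zero, h3, h4]
      field_simp

open Polynomial in
/-- every admissible data occurs -/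
theorem part_two {r h : ℕ} (n : Fin h → ℕ) (S : Finset (Fin h)) (e : ℕ)
    (hadm : Admissible n S e r) : ∃ Y : Finset Point, Y.card = r ∧
      ∀ i j, (j ≤ 1 ∨ ∑ k, min 2 (n k) ≤ i + 1) → hilbert (doubleIdeal Y) i j = Phi n S e i j := by
  classical
  let a : Fin h → ℂ := fun k => ((k : ℕ) : ℂ) + 1
  have ha : Function.Injective a := by
    intro x y hxy
    simp only [a, add_left_inj, Nat.cast_inj] at hxy
    exact Fin.ext hxy
  let g : Fin h → ℕ → ℂ := fun k t => a k ^ e + ((if k ∈ S then t else t + 1 : ℕ) : ℂ)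
  have hg : ∀ k, Function.Injective (g k) := by
    intro k x y hxy
    simp only [g, add_right_inj, Nat.cast_inj] at hxy
    by_cases hk : k ∈ S
    · simpa [hk] using hxy
    · simpa [hk] using hxy
  let B : Fin h → Finset ℂ := fun k => (Finset.range (n k)).image (g k)
  have hBc : ∀ k, (B k).card = n k := fun k => by
    rw [Finset.card_image_of_injective _ (hg k), Finset.card_range]
  have hBn : (fun k => (B k).card) = n := funext hBc
  have hit : ∀ k, Hit a B 1 (X ^ e) k ↔ k ∈ S := by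
    intro k
    simp only [Hit, eval_pow, eval_X, eval_one, mul_one, B, Finset.mem_image, Finset.mem_range]
    constructor
    · rintro ⟨b, ⟨t, _, rfl⟩, hb⟩
      by_contra hk
      simp only [g, if_neg hk] at hb
      have h1 : (((t + 1 : ℕ)) : ℂ) = 0 := by linear_combination -hb
      rw [Nat.cast_eq_zero] at h1
      omega
    · intro hk
      refine ⟨a k ^ e, ⟨0, hadm.pos k, ?_⟩, rfl⟩
      simp [g, hk]
  have hHS : HS a B 1 (X ^ e) = S := by
    ext k
    rw [mem_HS, hit]
  have hdeg : max (1 : ℂ[X]).natDegree (X ^ e : ℂ[X]).natDegree = e := by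
    rw [natDegree_one, natDegree_X_pow, Nat.zero_max]
  have href : 2 * max (1 : ℂ[X]).natDegree (X ^ e : ℂ[X]).natDegree + (Sing B).card ≤
      2 * (SH a B 1 (X ^ e)).card := by
    rw [hdeg, SH_eq, hHS]
    have h1 := hadm.le
    have e1 : Sing B = Finset.univ.filter fun k => n k = 1 := by
      ext k
      rw [mem_Sing, hBc]; simp
    have e2 : (S.filter fun k => (B k).card = 1) = S.filter fun k => n k = 1 := by
      refine Finset.filter_congr fun k _ => ?_
      rw [hBc]
    rw [e1, e2]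
    exact h1
  let Z : Finset (ℂ × ℂ) := Finset.univ.biUnion fun k => (B k).image fun b => (a k, b)
  have hZ : ∀ z, z ∈ Z ↔ ∃ k, z.1 = a k ∧ z.2 ∈ B k := by
    rintro ⟨x, y⟩
    simp only [Z, Finset.mem_biUnion, Finset.mem_univ, true_and, Finset.mem_image, Prod.mk.injEq]
    constructor
    · rintro ⟨k, b, hb, h1, h2⟩
      exact ⟨k, h1.symm, h2 ▸ hb⟩
    · rintro ⟨k, h1, h2⟩
      exact ⟨k, y, h2, h1.symm, rfl⟩
  have hZc : Z.card = r := by
    rw [← hadm.sum_eq]
    rw [Finset.card_biUnion]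
    · refine Finset.sum_congr rfl fun k _ => ?_
      rw [Finset.card_image_of_injective, hBc]
      intro x y hxy
      exact congrArg Prod.snd hxy
    · intro k _ k' _ hkk'
      rw [Function.onFun, Finset.disjoint_left]
      intro z hz hz'
      rw [Finset.mem_image] at hz hz'
      obtain ⟨b, _, rfl⟩ := hz
      obtain ⟨b', _, hb'⟩ := hz'
      exact hkk' (ha (congrArg Prod.fst hb')).symm
  have hinj : Function.Injective pt := by
    intro x y hxy
    rw [← (pt_good x).2, ← (pt_good y).2, hxy]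
  refine ⟨Z.image pt, ?_, ?_⟩
  · rw [Finset.card_image_of_injective _ hinj, hZc]
  · intro i j hij
    have hgood : ∀ P ∈ Z.image pt, Good 0 0 P := by
      intro P hP
      rw [Finset.mem_image] at hP
      obtain ⟨z, _, rfl⟩ := hP
      exact (pt_good z).1
    rw [hilbert_eq_DV hgood]
    have hset : ∀ z, z ∈ {z | ∃ P ∈ Z.image pt, aff 0 0 P = z} ↔ ∃ k, z.1 = a k ∧ z.2 ∈ B k := by
      intro z
      rw [← hZ]
      constructor
      · rintro ⟨P, hP, rfl⟩
        rw [Finset.mem_image] at hP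
        obtain ⟨w, hw, rfl⟩ := hP
        rw [(pt_good w).2]; exact hw
      · intro hz
        exact ⟨pt z, Finset.mem_image_of_mem _ hz, (pt_good z).2⟩
    rw [DV_eq_WW hset]
    have h1 := main_aff ha (fun k => by rw [hBc]; exact hadm.pos k) isCoprime_one_left href i j
      (by simpa only [hBc] using hij)
    rw [h1, hHS, hdeg, hBn]

end
end FP97
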