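import Mathlib

/-!
# Hilbert functions of double points in `ℙ¹ × ℙ¹`

The bigraded ring `ℂ[x₀, x₁, x₂, x₃]` of `ℙ¹ × ℙ¹`, the ideal of the scheme of double points
supported on a finite set `Y`, its Hilbert function, and the explicit functions `Phi`.
-/

open MvPolynomial Module
open scoped LinearAlgebra.Projectivization

namespace Pool.Agent.helper97.FP

/-- `ℙ¹ × ℙ¹` over `ℂ`. -/
abbrev Point : Type := ℙ ℂ (Fin 2 → ℂ) × ℙ ℂ (Fin 2 → ℂ)

/-- The bidegrees of `x₀, x₁, x₂, x₃`: `(1,0), (1,0), (0,1), (0,1)`. -/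
def bideg : Fin 4 → ℕ × ℕ := ![(1, 0), (1, 0), (0, 1), (0, 1)]

/-- `R_{(i,j)}`, the bihomogeneous forms of bidegree `(i,j)`. -/
noncomputable def forms (i j : ℕ) : Submodule ℂ (MvPolynomial (Fin 4) ℂ) :=
  weightedHomogeneousSubmodule ℂ bideg (i, j)

/-- The ideal `I_P = (a₁x₀ - a₀x₁, b₁x₂ - b₀x₃)` of the point `P = ([a₀:a₁], [b₀:b₁])`. -/
noncomputable def idealPoint (P : Point) : Ideal (MvPolynomial (Fin 4) ℂ) :=
  Ideal.span {C (P.1.rep 1) * X 0 - C (P.1.rep 0) * X 1,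
    C (P.2.rep 1) * X 2 - C (P.2.rep 0) * X 3}

/-- The ideal `I_Y^{(2)} = ⋂ I_P²` of the double points supported on `Y`. -/
noncomputable def doubleIdeal (Y : Finset Point) : Ideal (MvPolynomial (Fin 4) ℂ) :=
  ⨅ P ∈ Y, idealPoint P ^ 2

/-- The Hilbert function `H_{R/J}(i,j) = dim R_{(i,j)} - dim J_{(i,j)}`. -/
noncomputable def hilbert (J : Ideal (MvPolynomial (Fin 4) ℂ)) (i j : ℕ) : ℕ :=
  finrank ℂ (forms i j) - finrank ℂ (forms i j ⊓ J.restrictScalars ℂ : Submodule ℂ _)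

section Phi

variable {h : ℕ} (n : Fin h → ℕ) (S : Finset (Fin h)) (e : ℕ)

/-- `N_j = ∑ (min(j+1, 2n_k) + min(j+1, n_k))`. -/
def conds (j : ℕ) : ℕ := ∑ k, (min (j + 1) (2 * n k) + min (j + 1) (n k))

/-- `γ_j = ∑ δ_k - e j`, with `δ_k = 2` for `k ∈ S` and `δ_k = 0, 1, 2` according to `2n_k ≤ j`,
`n_k ≤ j < 2n_k`, `j < n_k` for `k ∉ S`. -/
def gam (j : ℕ) : ℕ :=
  (∑ k, if k ∈ S then 2 else if 2 * n k ≤ j then 0 else if n k ≤ j then 1 else 2) - e * j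

/-- `Φ(i,j) = N_j - (γ_j - (i+1))⁺`, with a further term `(N_1 - γ_1 - (i+1))⁺` subtracted if
`j = 1` (subtraction of natural numbers is truncated, so it includes the `⁺`). -/
def Phi (i j : ℕ) : ℕ :=
  conds n j - (gam n S e j - (i + 1)) -
    if j = 1 then conds n 1 - gam n S e 1 - (i + 1) else 0

/-- Data: `n_k ≥ 1` with sum `r`, and `S`, `e` with
`2 (#{k ∈ S, n_k = 1} - e) ≥ #{k, n_k = 1}`. -/
structure Admissible (r : ℕ) : Prop where
  pos : ∀ k, 1 ≤ n k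
  sum_eq : ∑ k, n k = r
  le : 2 * e + (Finset.univ.filter fun k => n k = 1).card ≤ 2 * (S.filter fun k => n k = 1).card

end Phi

end Pool.Agent.helper97.FP
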