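import Pool.Agent.helper97.FP.Curve3
import Pool.Agent.helper97.FP.Defs

namespace FP97
noncomputable section
open Polynomial Finset Module
open Pool.Agent.helper97.FP

variable {h : ℕ} {a : Fin h → ℂ} {B : Fin h → Finset ℂ}

open Classical in
/-- all hit lines -/
def HS (a : Fin h → ℂ) (B : Fin h → Finset ℂ) (p q : ℂ[X]) : Finset (Fin h) :=
  univ.filter fun k => Hit a B p q k

lemma mem_HS {p q : ℂ[X]} {k : Fin h} : k ∈ HS a B p q ↔ Hit a B p q k := by simp [HS]

lemma SH_eq (p q : ℂ[X]) : SH a B p q = (HS a B p q).filter fun k => (B k).card = 1 := by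
  ext k
  rw [mem_SH, Finset.mem_filter, mem_HS, and_comm]

theorem main_aff (ha : Function.Injective a) (hB : ∀ k, 1 ≤ (B k).card) {p q : ℂ[X]}
    (hpq : IsCoprime p q)
    (href : 2 * max p.natDegree q.natDegree + (Sing B).card ≤ 2 * (SH a B p q).card)
    (i j : ℕ) (hij : j ≤ 1 ∨ ∑ k, min 2 (B k).card ≤ i + 1) :
    (i + 1) * (j + 1) - finrank ℂ (WW a B i j) =
      Phi (fun k => (B k).card) (HS a B p q) (max p.natDegree q.natDegree) i j := by
  have hdual := duality (B := B) ha i j
  have hN : conds (fun k => (B k).card) j =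
    ∑ k, (min (j+1) (2 * (B k).card) + min (j+1) (B k).card) := rfl
  rw [← hN] at hdual
  set e := max p.natDegree q.natDegree with he
  set S := HS a B p q with hS
  have hδ : ∀ j', (∑ k, if k ∈ S then 2 else if 2 * (B k).card ≤ j' then 0 else
      if (B k).card ≤ j' then 1 else 2) + ∑ k, tt j' (B k).card (Hit a B p q k) = 2 * h := by
    intro j'
    rw [← Finset.sum_add_distrib]
    have : ∀ k ∈ (univ : Finset (Fin h)), ((if k ∈ S then 2 else if 2 * (B k).card ≤ j' then 0 else
      if (B k).card ≤ j' then 1 else 2) + tt j' (B k).card (Hit a B p q k)) = 2 := by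
      intro k _
      have hk : k ∈ S ↔ Hit a B p q k := mem_HS
      rw [tt]
      by_cases c : Hit a B p q k
      · rw [if_pos (hk.mpr c), if_pos c]
      · rw [if_neg (fun hc => c (hk.mp hc)), if_neg c]
        split_ifs <;> omega
    rw [Finset.sum_congr rfl this, Finset.sum_const, Finset.card_univ, Fintype.card_fin,
      smul_eq_mul, mul_comm]
  -- counting
  have hcount : ∑ k, min 2 (B k).card + (Sing B).card = 2 * h := by
    have : (Sing B).card = ∑ k, if (B k).card = 1 then 1 else 0 := by
      rw [Sing, Finset.card_filter]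
    rw [this, ← Finset.sum_add_distrib]
    have : ∀ k ∈ (univ : Finset (Fin h)), (min 2 (B k).card + if (B k).card = 1 then 1 else 0) = 2 := by
      intro k _
      have := hB k
      split_ifs <;> omega
    rw [Finset.sum_congr rfl this, Finset.sum_const, Finset.card_univ, Fintype.card_fin,
      smul_eq_mul, mul_comm]
  have hSH := Finset.card_le_card (SH_subset (a := a) (B := B) p q)
  by_cases hj1 : j = 1
  · subst hj1
    have hN1 : conds (fun k => (B k).card) 1 + (Sing B).card = 4 * h := by
      have : conds (fun k => (B k).card) 1 = ∑ k, (2 + min 2 (B k).card) := by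
        unfold conds
        refine Finset.sum_congr rfl fun k _ => ?_
        have := hB k
        show min (1+1) (2 * (B k).card) + min (1+1) (B k).card = _
        omega
      rw [this, Finset.sum_add_distrib]
      simp only [Finset.sum_const, Finset.card_univ, Fintype.card_fin, smul_eq_mul]
      omega
    have hτ : ∑ k, tt 1 (B k).card (Hit a B p q k) + (SH a B p q).card = (Sing B).card := by
      have e1 : (Sing B).card = ∑ k, if (B k).card = 1 then 1 else 0 := by
        rw [Sing, Finset.card_filter]
      classical
      have e2 : (SH a B p q).card = ∑ k, if ((B k).card = 1 ∧ Hit a B p q k) then 1 else 0 := by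
        rw [SH, Finset.card_filter]
      rw [e1, e2, ← Finset.sum_add_distrib]
      refine Finset.sum_congr rfl fun k _ => ?_
      have := hB k
      rw [tt]
      by_cases c1 : Hit a B p q k
      · simp [c1]
      · by_cases c2 : (B k).card = 1
        · simp [c1, c2]
        · have c3 : ¬ (2 * (B k).card ≤ 1) := by omega
          have c4 : ¬ ((B k).card ≤ 1) := by omega
          simp [c1, c2, c3, c4]
    have hδ1 := hδ 1
    unfold Phi
    rw [if_pos rfl]
    unfold gam
    rw [mul_one]
    beta_reduce
    beta_reduce at hδ1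
    generalize (∑ k, if k ∈ S then 2 else if 2 * (B k).card ≤ 1 then 0 else
      if (B k).card ≤ 1 then 1 else 2) = D at hδ1 ⊢
    by_cases hd : 2 * h - 1 - i ≤ (SH a B p q).card - e
    · have h1 := finrank_QS_of_vec ha hpq 1 (2 * h - 1 - i) (all_vec_one ha hpq hd)
      rw [one_mul, ← he] at h1
      omega
    · push Not at hd
      -- upper bound
      obtain ⟨t, ht⟩ : ∃ t, 2 * h - 1 - i = ((SH a B p q).card - e) + t :=
        ⟨2 * h - 1 - i - ((SH a B p q).card - e), by omega⟩
      have h1 := finrank_QS_of_vec ha hpq 1 ((SH a B p q).card - e) (all_vec_one ha hpq le_rfl)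
      rw [one_mul, ← he] at h1
      have h2 := finrank_QS_add_le (a := a) (B := B) 1 ((SH a B p q).card - e) t
      rw [← ht] at h2
      have h3 : (i + 1) * (1 + 1) - finrank ℂ (WW a B i 1) ≤ (i + 1) * (1 + 1) := Nat.sub_le _ _
      omega
  · -- `j ≠ 1`
    have hall : ∀ Q ∈ QS a B j (2 * h - 1 - i), ∃ ρ, Q = vec p q j ρ := by
      rcases Nat.lt_or_ge j 2 with hj | hj
      · have : j = 0 := by omega
        subst this
        exact all_vec_zero
      · refine all_vec ha hpq href hj ?_
        rcases hij with hij | hij
        · omega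
        · omega
    have h1 := finrank_QS_of_vec ha hpq j (2 * h - 1 - i) hall
    unfold Phi
    rw [if_neg hj1, Nat.sub_zero]
    unfold gam
    have hδj := hδ j
    beta_reduce
    beta_reduce at hδj
    generalize (∑ k, if k ∈ S then 2 else if 2 * (B k).card ≤ j then 0 else
      if (B k).card ≤ j then 1 else 2) = D at hδj ⊢
    rw [← he, mul_comm j e] at h1
    omega

end
end FP97
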