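import Pool.Agent.helper97.FP.Dual

namespace FP97
noncomputable section
open Polynomial Finset Module

/-- homogenisation of `G` (degree `≤ j`) evaluated at `(p, q)` -/
def Gh (p q : ℂ[X]) (j : ℕ) (G : ℂ[X]) : ℂ[X] :=
  ∑ l : Fin (j+1), C (G.coeff l) * (p ^ (j - (l : ℕ)) * q ^ (l : ℕ))

lemma Gh_mulstep (p q : ℂ[X]) (j : ℕ) (b : ℂ) {G : ℂ[X]} (hG : G ∈ degreeLT ℂ (j+1)) :
    Gh p q (j+1) ((X - C b) * G) = (q - C b * p) * Gh p q j G := by
  have h0 : G.coeff (j+1) = 0 := by
    rw [mem_degreeLT, degree_lt_iff_coeff_zero] at hG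
    exact hG _ le_rfl
  have h1 : Gh p q (j+1) (X * G) = q * Gh p q j G := by
    unfold Gh
    rw [Fin.sum_univ_succ, Finset.mul_sum]
    have e0 : (X * G).coeff ((0 : Fin (j+1+1)) : ℕ) = 0 := by simp
    rw [e0, C_0, zero_mul, zero_add]
    refine Finset.sum_congr rfl fun l _ => ?_
    rw [Fin.val_succ, coeff_X_mul, Nat.add_sub_add_right, pow_succ]
    ring
  have h2 : Gh p q (j+1) (C b * G) = C b * p * Gh p q j G := by
    unfold Gh
    rw [Fin.sum_univ_castSucc, Finset.mul_sum]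
    have e0 : (C b * G).coeff ((Fin.last (j+1) : Fin (j+1+1)) : ℕ) = 0 := by
      rw [coeff_C_mul, Fin.val_last, h0, mul_zero]
    rw [e0, C_0, zero_mul, add_zero]
    refine Finset.sum_congr rfl fun l _ => ?_
    have hl : j + 1 - (l : ℕ) = (j - (l : ℕ)) + 1 := by omega
    rw [Fin.val_castSucc, hl, coeff_C_mul, C_mul, pow_succ]
    ring
  have h3 : Gh p q (j+1) (X * G - C b * G) = Gh p q (j+1) (X * G) - Gh p q (j+1) (C b * G) := by
    unfold Gh
    rw [← Finset.sum_sub_distrib]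
    refine Finset.sum_congr rfl fun l _ => ?_
    rw [coeff_sub, C_sub, sub_mul]
  rw [sub_mul, h3, h1, h2]
  ring

lemma Gh_prod (p q : ℂ[X]) (s : Multiset ℂ) :
    (s.map fun b => X - C b).prod ∈ degreeLT ℂ (s.card + 1) ∧
    Gh p q s.card (s.map fun b => X - C b).prod = (s.map fun b => q - C b * p).prod := by
  induction s using Multiset.induction_on with
  | empty => 
    constructor
    · simp [mem_degreeLT]
    · simp [Gh]
  | cons b s ih =>
    rw [Multiset.card_cons, Multiset.map_cons, Multiset.prod_cons, Multiset.map_cons,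
      Multiset.prod_cons, Gh_mulstep p q _ b ih.1, ih.2]
    refine ⟨?_, rfl⟩
    rw [mem_degreeLT_mul (X_sub_C_ne_zero b), natDegree_X_sub_C]
    exact ih.1

lemma MB_eq (B : Finset ℂ) : MB B = (B.val.map fun b => X - C b).prod := rfl

/-- if `(p,q)(α)` is no point of `s`, then some `G` divisible by the product does not vanish -/
lemma exists_G {p q : ℂ[X]} {α : ℂ} (hpq : p.eval α ≠ 0 ∨ q.eval α ≠ 0) {j : ℕ} (s : Multiset ℂ)
    (hs : s.card ≤ j) (hn : ∀ b ∈ s, q.eval α ≠ b * p.eval α) :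
    ∃ G ∈ mults (s.map fun b => X - C b).prod (j+1), (Gh p q j G).eval α ≠ 0 := by
  obtain ⟨β, hβ⟩ : ∃ β : ℂ, q.eval α ≠ β * p.eval α := by
    by_cases hp : p.eval α = 0
    · exact ⟨0, by simpa using hpq.resolve_left (by simpa using hp)⟩
    · refine ⟨q.eval α / p.eval α + 1, fun h => ?_⟩
      rw [add_mul, div_mul_cancel₀ _ hp, one_mul] at h
      exact hp (by linear_combination -h)
  let s' := s + Multiset.replicate (j - s.card) β
  have hc : s'.card = j := by simp [s']; omega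
  have h1 := Gh_prod p q s'
  rw [hc] at h1
  refine ⟨(s'.map fun b => X - C b).prod, ⟨h1.1, ?_⟩, ?_⟩
  · simp only [s', Multiset.map_add, Multiset.prod_add]
    exact dvd_mul_right _ _
  · rw [h1.2, eval_multiset_prod, Multiset.map_map]
    refine Multiset.prod_ne_zero fun h0 => ?_
    rw [Multiset.mem_map] at h0
    obtain ⟨b, hb, hb0⟩ := h0
    simp only [Function.comp_apply, eval_sub, eval_mul, eval_C] at hb0
    rw [Multiset.mem_add] at hb
    rcases hb with hb | hb
    · exact hn b hb (sub_eq_zero.mp hb0)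
    · rw [Multiset.eq_of_mem_replicate hb] at hb0
      exact hβ (sub_eq_zero.mp hb0)

/-- the vector `ρ p^{j-l} q^l` -/
def vec (p q : ℂ[X]) (j : ℕ) : ℂ[X] →ₗ[ℂ] (Fin (j+1) → ℂ[X]) where
  toFun ρ l := ρ * (p ^ (j - (l : ℕ)) * q ^ (l : ℕ))
  map_add' x y := by funext l; simp only [Pi.add_apply]; ring
  map_smul' c x := by funext l; simp

lemma vec_apply (p q : ℂ[X]) (j : ℕ) (ρ : ℂ[X]) (l : Fin (j+1)) :
    vec p q j ρ l = ρ * (p ^ (j - (l : ℕ)) * q ^ (l : ℕ)) := rfl

lemma sum_vec (p q : ℂ[X]) (j : ℕ) (ρ G : ℂ[X]) (α : ℂ) :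
    ∑ l : Fin (j+1), G.coeff l * (vec p q j ρ l).eval α = (ρ * Gh p q j G).eval α := by
  rw [Gh, Finset.mul_sum, eval_finsetSum]
  refine Finset.sum_congr rfl fun l _ => ?_
  rw [vec_apply]
  simp only [eval_mul, eval_C]
  ring

lemma sum_vec' (p q : ℂ[X]) (j : ℕ) (ρ G : ℂ[X]) (α : ℂ) :
    ∑ l : Fin (j+1), G.coeff l * (derivative (vec p q j ρ l)).eval α =
      (derivative (ρ * Gh p q j G)).eval α := by
  have : ρ * Gh p q j G = ∑ l : Fin (j+1), C (G.coeff l) * vec p q j ρ l := by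
    rw [Gh, Finset.mul_sum]
    refine Finset.sum_congr rfl fun l _ => ?_
    rw [vec_apply]; ring
  rw [this, derivative_sum, eval_finsetSum]
  refine Finset.sum_congr rfl fun l _ => ?_
  rw [derivative_C_mul, eval_mul, eval_C]

lemma vec_S1_iff (p q : ℂ[X]) (j : ℕ) (ρ : ℂ[X]) (α : ℂ) (B : Finset ℂ) :
    (fun l => (vec p q j ρ l).eval α) ∈ S1 j B ↔
      ∀ G ∈ mults (MB B) (j+1), (ρ * Gh p q j G).eval α = 0 := by
  rw [mem_S1_iff]
  simp only [sum_vec]

lemma vec_S2_iff (p q : ℂ[X]) (j : ℕ) (ρ : ℂ[X]) (α : ℂ) (B : Finset ℂ) :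
    (fun l => (derivative (vec p q j ρ l)).eval α) ∈ S2 j B ↔
      ∀ G ∈ mults (MB B ^ 2) (j+1), (derivative (ρ * Gh p q j G)).eval α = 0 := by
  rw [mem_S2_iff]
  simp only [sum_vec']

open Classical in
/-- the order of vanishing forced on `ρ` -/
def tt (j n : ℕ) (hit : Prop) : ℕ := if hit then 0 else if 2 * n ≤ j then 2 else if n ≤ j then 1 else 0

lemma eq_zero_of_mults {M G : ℂ[X]} {N : ℕ} (hG : G ∈ mults M N) (hM : N ≤ M.natDegree) : G = 0 := by
  obtain ⟨h1, h2⟩ := hG
  by_contra h0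
  have h3 := natDegree_le_of_dvd h2 h0
  rw [mem_degreeLT, degree_eq_natDegree h0] at h1
  have : G.natDegree < N := by exact_mod_cast h1
  omega

lemma Gh_zero (p q : ℂ[X]) (j : ℕ) : Gh p q j 0 = 0 := by simp [Gh]

/-- divisibility by `X - b` with `b` hit -/
lemma dvd_Gh_of_hit {p q : ℂ[X]} {α b : ℂ} (hb : q.eval α = b * p.eval α) {j : ℕ} {G : ℂ[X]}
    (hG : G ∈ degreeLT ℂ (j+1)) (hd : (X - C b) ∣ G) : (X - C α) ∣ Gh p q j G := by
  obtain ⟨G1, rfl⟩ := hd
  by_cases h0 : G1 = 0
  · subst h0; rw [mul_zero, Gh_zero]; exact dvd_zero _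
  rw [mem_degreeLT_mul (X_sub_C_ne_zero b), natDegree_X_sub_C, Nat.add_sub_cancel] at hG
  rcases j with _ | j
  · exfalso
    rw [mem_degreeLT, degree_eq_natDegree h0] at hG
    have : G1.natDegree < 0 := by exact_mod_cast hG
    omega
  · rw [Gh_mulstep p q j b hG]
    refine Dvd.dvd.mul_right ?_ _
    rw [dvd_iff_isRoot, IsRoot.def, eval_sub, eval_mul, eval_C, hb, sub_self]

lemma sq_dvd_Gh_of_hit {p q : ℂ[X]} {α b : ℂ} (hb : q.eval α = b * p.eval α) {j : ℕ} {G : ℂ[X]}
    (hG : G ∈ degreeLT ℂ (j+1)) (hd : (X - C b) ^ 2 ∣ G) : (X - C α) ^ 2 ∣ Gh p q j G := by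
  obtain ⟨G1, rfl⟩ := hd
  by_cases h0 : G1 = 0
  · subst h0; rw [mul_zero, Gh_zero]; exact dvd_zero _
  have e : (X - C b) ^ 2 * G1 = (X - C b) * ((X - C b) * G1) := by ring
  rw [e] at hG ⊢
  have hne : (X - C b) * G1 ≠ 0 := mul_ne_zero (X_sub_C_ne_zero b) h0
  rw [mem_degreeLT_mul (X_sub_C_ne_zero b), natDegree_X_sub_C, Nat.add_sub_cancel] at hG
  rcases j with _ | j
  · exfalso
    rw [mem_degreeLT, degree_eq_natDegree hne] at hG
    have : ((X - C b) * G1).natDegree < 0 := by exact_mod_cast hG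
    omega
  · rw [Gh_mulstep p q j b hG, pow_two]
    refine mul_dvd_mul ?_ (dvd_Gh_of_hit hb hG (dvd_mul_right _ _))
    rw [dvd_iff_isRoot, IsRoot.def, eval_sub, eval_mul, eval_C, hb, sub_self]

/-- local analysis at one line -/
lemma local_iff {p q : ℂ[X]} (hpq : IsCoprime p q) (j : ℕ) (ρ : ℂ[X]) (α : ℂ) (B : Finset ℂ) :
    ((fun l => (vec p q j ρ l).eval α) ∈ S1 j B ∧
      (fun l => (derivative (vec p q j ρ l)).eval α) ∈ S2 j B) ↔
    (X - C α) ^ (tt j B.card (∃ b ∈ B, q.eval α = b * p.eval α)) ∣ ρ := by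
  have hne : p.eval α ≠ 0 ∨ q.eval α ≠ 0 := by
    by_contra hcon
    push Not at hcon
    obtain ⟨x, y, hxy⟩ := hpq
    have := congrArg (eval α) hxy
    rw [eval_add, eval_mul, eval_mul, hcon.1, hcon.2, mul_zero, mul_zero, add_zero, eval_one] at this
    exact zero_ne_one this
  rw [vec_S1_iff, vec_S2_iff]
  by_cases hit : ∃ b ∈ B, q.eval α = b * p.eval α
  · have : tt j B.card (∃ b ∈ B, q.eval α = b * p.eval α) = 0 := by rw [tt, if_pos hit]
    rw [this, pow_zero]
    refine ⟨fun _ => one_dvd _, fun _ => ?_⟩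
    obtain ⟨b, hb, hbe⟩ := hit
    constructor
    · rintro G ⟨hG1, hG2⟩
      have h1 : (X - C b) ∣ G := (dvd_iff_isRoot.mpr ((MB_dvd_iff B G).mp hG2 b hb))
      have h2 := dvd_Gh_of_hit hbe hG1 h1
      exact dvd_iff_isRoot.mp (h2.mul_left ρ)
    · rintro G ⟨hG1, hG2⟩
      have h1 : (X - C b) ^ 2 ∣ G := (sq_dvd_iff b G).mpr ((MB_sq_dvd_iff B G).mp hG2 b hb)
      have h2 := sq_dvd_Gh_of_hit hbe hG1 h1
      exact ((sq_dvd_iff α _).mp (h2.mul_left ρ)).2
  · rw [tt, if_neg hit]
    push Not at hit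
    split_ifs with c1 c2
    · -- `2 n ≤ j`
      rw [sq_dvd_iff]
      constructor
      · rintro ⟨h1, h2⟩
        obtain ⟨G, hG, hGe⟩ := exists_G hne (j := j) B.val (by rw [Finset.card_val]; omega)
          (fun b hb => hit b hb)
        have e1 : ρ.eval α = 0 := by
          have := h1 G hG
          rw [eval_mul] at this
          exact (mul_eq_zero.mp this).resolve_right hGe
        refine ⟨e1, ?_⟩
        obtain ⟨G', hG', hGe'⟩ := exists_G hne (j := j) (B.val + B.val)
          (by rw [Multiset.card_add, Finset.card_val]; omega)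
          (fun b hb => by
            rw [Multiset.mem_add] at hb
            rcases hb with hb | hb <;> exact hit b hb)
        rw [Multiset.map_add, Multiset.prod_add, ← MB_eq, ← pow_two] at hG'
        have := h2 G' hG'
        rw [derivative_mul, eval_add, eval_mul, eval_mul, e1, zero_mul, add_zero] at this
        exact (mul_eq_zero.mp this).resolve_right hGe'
      · rintro ⟨h1, h2⟩
        constructor
        · intro G _
          rw [eval_mul, h1, zero_mul]
        · intro G _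
          rw [derivative_mul, eval_add, eval_mul, eval_mul, h1, h2, zero_mul, zero_mul, add_zero]
    · -- `n ≤ j < 2 n`
      rw [pow_one, dvd_iff_isRoot, IsRoot.def]
      constructor
      · rintro ⟨h1, h2⟩
        obtain ⟨G, hG, hGe⟩ := exists_G hne (j := j) B.val (by rw [Finset.card_val]; omega)
          (fun b hb => hit b hb)
        have := h1 G hG
        rw [eval_mul] at this
        exact (mul_eq_zero.mp this).resolve_right hGe
      · intro h1
        constructor
        · intro G _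
          rw [eval_mul, h1, zero_mul]
        · intro G hG
          have : G = 0 := eq_zero_of_mults hG (by
            rw [(MB_monic B).natDegree_pow, natDegree_MB]; omega)
          rw [this, Gh_zero, mul_zero, derivative_zero, eval_zero]
    · rw [pow_zero]
      refine ⟨fun _ => one_dvd _, fun _ => ⟨?_, ?_⟩⟩
      · intro G hG
        have : G = 0 := eq_zero_of_mults hG (by rw [natDegree_MB]; omega)
        rw [this, Gh_zero, mul_zero, eval_zero]
      · intro G hG
        have : G = 0 := eq_zero_of_mults hG (by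
          rw [(MB_monic B).natDegree_pow, natDegree_MB]; omega)
        rw [this, Gh_zero, mul_zero, derivative_zero, eval_zero]

end
end FP97
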