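import Pool.Agent.helper97.FP.Curve

namespace FP97
noncomputable section
open Polynomial Finset Module

variable {h : ℕ} {a : Fin h → ℂ} {B : Fin h → Finset ℂ}

/-- `(p, q)` passes through a point over `a k` -/
def Hit (a : Fin h → ℂ) (B : Fin h → Finset ℂ) (p q : ℂ[X]) (k : Fin h) : Prop :=
  ∃ b ∈ B k, q.eval (a k) = b * p.eval (a k)

/-- the forced factor of `ρ` -/
def MM (a : Fin h → ℂ) (B : Fin h → Finset ℂ) (p q : ℂ[X]) (j : ℕ) : ℂ[X] :=
  ∏ k, (X - C (a k)) ^ (tt j (B k).card (Hit a B p q k))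

lemma MM_ne_zero (p q : ℂ[X]) (j : ℕ) : MM a B p q j ≠ 0 := (monic_prod_pow _ _ _).ne_zero

lemma natDegree_MM (p q : ℂ[X]) (j : ℕ) :
    (MM a B p q j).natDegree = ∑ k, tt j (B k).card (Hit a B p q k) := natDegree_prod_pow _ _ _

/-- degree condition for `vec` -/
lemma vec_degree {p q : ℂ[X]} (hpq : IsCoprime p q) (j d : ℕ) (ρ : ℂ[X]) :
    (∀ l, vec p q j ρ l ∈ degreeLT ℂ d) ↔
      ρ ∈ degreeLT ℂ (d - j * max p.natDegree q.natDegree) := by
  constructor
  · intro hv
    rcases le_total q.natDegree p.natDegree with hle | hle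
    · rw [max_eq_left hle]
      by_cases hp : p = 0
      · have hq : q ≠ 0 := by
          rintro rfl
          rw [hp] at hpq
          exact not_isCoprime_zero_zero hpq
        have h1 := hv (Fin.last j)
        rw [vec_apply, Fin.val_last, Nat.sub_self, pow_zero, one_mul, mul_comm,
          mem_degreeLT_mul (pow_ne_zero _ hq), natDegree_pow] at h1
        rw [hp, natDegree_zero] at hle ⊢
        have : q.natDegree = 0 := Nat.le_zero.mp hle
        rwa [this] at h1
      · have h1 := hv 0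
        rw [vec_apply, Fin.val_zero, pow_zero, mul_one, Nat.sub_zero, mul_comm,
          mem_degreeLT_mul (pow_ne_zero _ hp), natDegree_pow] at h1
        exact h1
    · rw [max_eq_right hle]
      by_cases hq : q = 0
      · have hp : p ≠ 0 := by
          rintro rfl
          rw [hq] at hpq
          exact not_isCoprime_zero_zero hpq
        have h1 := hv 0
        rw [vec_apply, Fin.val_zero, pow_zero, mul_one, Nat.sub_zero, mul_comm,
          mem_degreeLT_mul (pow_ne_zero _ hp), natDegree_pow] at h1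
        rw [hq, natDegree_zero] at hle ⊢
        have : p.natDegree = 0 := Nat.le_zero.mp hle
        rwa [this] at h1
      · have h1 := hv (Fin.last j)
        rw [vec_apply, Fin.val_last, Nat.sub_self, pow_zero, one_mul, mul_comm,
          mem_degreeLT_mul (pow_ne_zero _ hq), natDegree_pow] at h1
        exact h1
  · intro hρ l
    by_cases h0 : p ^ (j - (l : ℕ)) * q ^ (l : ℕ) = 0
    · rw [vec_apply, h0, mul_zero]; exact zero_mem _
    · rw [vec_apply, mul_comm, mem_degreeLT_mul h0]
      refine degreeLT_mono (Nat.sub_le_sub_left ?_ d) hρ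
      refine (natDegree_mul_le).trans ?_
      refine (Nat.add_le_add (natDegree_pow_le) (natDegree_pow_le)).trans ?_
      have hl : (l : ℕ) ≤ j := by omega
      calc (j - (l : ℕ)) * p.natDegree + (l : ℕ) * q.natDegree
          ≤ (j - (l : ℕ)) * max p.natDegree q.natDegree + (l : ℕ) * max p.natDegree q.natDegree :=
            Nat.add_le_add (Nat.mul_le_mul_left _ (le_max_left _ _))
              (Nat.mul_le_mul_left _ (le_max_right _ _))
        _ = (j - (l : ℕ) + l) * max p.natDegree q.natDegree := by ring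
        _ = j * max p.natDegree q.natDegree := by rw [Nat.sub_add_cancel hl]

lemma vec_mem_iff (ha : Function.Injective a) {p q : ℂ[X]} (hpq : IsCoprime p q) (j d : ℕ)
    (ρ : ℂ[X]) : vec p q j ρ ∈ QS a B j d ↔
      ρ ∈ mults (MM a B p q j) (d - j * max p.natDegree q.natDegree) := by
  rw [mem_QS, vec_degree hpq, mem_mults]
  refine and_congr Iff.rfl ?_
  rw [MM, prod_pow_dvd univ a ha.injOn]
  simp only [mem_univ, true_implies]
  refine forall_congr' fun k => ?_
  exact local_iff hpq j ρ (a k) (B k)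

lemma vec_injective {p q : ℂ[X]} (hpq : IsCoprime p q) (j : ℕ) : Function.Injective (vec p q j) := by
  rw [injective_iff_map_eq_zero]
  intro ρ hρ
  by_cases hp : p = 0
  · have hq : q ≠ 0 := by
      rintro rfl
      rw [hp] at hpq
      exact not_isCoprime_zero_zero hpq
    have h1 := congrFun hρ (Fin.last j)
    rw [vec_apply, Fin.val_last, Nat.sub_self, pow_zero, one_mul, Pi.zero_apply] at h1
    exact (mul_eq_zero.mp h1).resolve_right (pow_ne_zero _ hq)
  · have h1 := congrFun hρ 0
    rw [vec_apply, Fin.val_zero, pow_zero, mul_one, Nat.sub_zero, Pi.zero_apply] at h1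
    exact (mul_eq_zero.mp h1).resolve_right (pow_ne_zero _ hp)

/-- if every element is of the form `ρ p^{j-l} q^l`, the dimension is known -/
lemma finrank_QS_of_vec (ha : Function.Injective a) {p q : ℂ[X]} (hpq : IsCoprime p q) (j d : ℕ)
    (hall : ∀ Q ∈ QS a B j d, ∃ ρ, Q = vec p q j ρ) :
    finrank ℂ (QS a B j d) = d - j * max p.natDegree q.natDegree -
      ∑ k, tt j (B k).card (Hit a B p q k) := by
  have h1 : (mults (MM a B p q j) (d - j * max p.natDegree q.natDegree)).map (vec p q j) =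
      QS a B j d := by
    ext Q
    rw [Submodule.mem_map]
    constructor
    · rintro ⟨ρ, hρ, rfl⟩
      exact (vec_mem_iff ha hpq j d ρ).mpr hρ
    · intro hQ
      obtain ⟨ρ, rfl⟩ := hall Q hQ
      exact ⟨ρ, (vec_mem_iff ha hpq j d ρ).mp hQ, rfl⟩
  rw [← h1, ← (Submodule.equivMapOfInjective _ (vec_injective hpq j) _).finrank_eq,
    finrank_mults (MM_ne_zero _ _ _), natDegree_MM]

/-- structure of vectors with vanishing `2 × 2` minors -/
lemma struct {j : ℕ} (hj : 0 < j) (Q : Fin (j+1) → ℂ[X])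
    (hE : ∀ l m : Fin j, Q l.castSucc * Q m.succ = Q l.succ * Q m.castSucc) :
    ∃ ρ p q : ℂ[X], IsCoprime p q ∧ Q = vec p q j ρ := by
  by_cases h0 : Q 0 = 0
  · refine ⟨Q (Fin.last j), 0, 1, isCoprime_one_right, ?_⟩
    have key : ∀ n (hn : n < j), Q ⟨n, by omega⟩ = 0 := by
      intro n
      induction n with
      | zero => intro _; exact h0
      | succ n ih =>
        intro hn
        have h1 := ih (by omega)
        have h2 := hE ⟨n, by omega⟩ ⟨n+1, hn⟩
        have e1 : (Fin.castSucc (⟨n, by omega⟩ : Fin j)) = ⟨n, by omega⟩ := rfl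
        have e2 : (Fin.succ (⟨n, by omega⟩ : Fin j)) = ⟨n+1, by omega⟩ := rfl
        have e3 : (Fin.castSucc (⟨n+1, hn⟩ : Fin j)) = ⟨n+1, by omega⟩ := rfl
        rw [e1, e2, e3, h1, zero_mul] at h2
        exact mul_self_eq_zero.mp h2.symm
    funext l
    rw [vec_apply, one_pow, mul_one]
    by_cases hl : (l : ℕ) < j
    · rw [zero_pow (by omega), mul_zero]
      exact key l hl
    · have : l = Fin.last j := Fin.ext (by rw [Fin.val_last]; omega)
      rw [this, Fin.val_last, Nat.sub_self, pow_zero, mul_one]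
  · -- `Q 0 ≠ 0`
    let z : Fin j := ⟨0, hj⟩
    have hz : z.castSucc = 0 := rfl
    set Q0 := Q 0 with hQ0
    set Q1 := Q z.succ with hQ1
    set g := EuclideanDomain.gcd Q0 Q1 with hg
    have hg0 : g ≠ 0 := fun h => h0 (EuclideanDomain.gcd_eq_zero_iff.mp h).1
    obtain ⟨p, hp⟩ := EuclideanDomain.gcd_dvd_left Q0 Q1
    obtain ⟨q, hq⟩ := EuclideanDomain.gcd_dvd_right Q0 Q1
    rw [← hg] at hp hq
    have hcop : IsCoprime p q := by
      refine ⟨EuclideanDomain.gcdA Q0 Q1, EuclideanDomain.gcdB Q0 Q1, ?_⟩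
      have h1 := EuclideanDomain.gcd_eq_gcd_ab Q0 Q1
      rw [← hg] at h1
      refine mul_left_cancel₀ hg0 ?_
      calc g * (EuclideanDomain.gcdA Q0 Q1 * p + EuclideanDomain.gcdB Q0 Q1 * q)
          = (g * p) * EuclideanDomain.gcdA Q0 Q1 + (g * q) * EuclideanDomain.gcdB Q0 Q1 := by ring
        _ = Q0 * EuclideanDomain.gcdA Q0 Q1 + Q1 * EuclideanDomain.gcdB Q0 Q1 := by rw [← hp, ← hq]
        _ = g := h1.symm
        _ = g * 1 := (mul_one g).symm
    have hp0 : p ≠ 0 := by
      rintro rfl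
      rw [mul_zero] at hp
      exact h0 hp
    have h10 : Q1 * p = Q0 * q := by rw [hp, hq]; ring
    have key : ∀ l : Fin (j+1), Q l * p ^ (l : ℕ) = Q0 * q ^ (l : ℕ) := by
      intro l
      induction l using Fin.induction with
      | zero => simp [hQ0]
      | succ l ih =>
        have h1 := hE z l
        rw [hz, ← hQ0, ← hQ1] at h1
        rw [Fin.val_castSucc] at ih
        refine mul_left_cancel₀ h0 ?_
        rw [Fin.val_succ]
        calc Q0 * (Q l.succ * p ^ ((l : ℕ) + 1)) = (Q0 * Q l.succ) * p ^ ((l : ℕ) + 1) := by ring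
          _ = (Q1 * Q l.castSucc) * p ^ ((l : ℕ) + 1) := by rw [h1]
          _ = (Q1 * p) * (Q l.castSucc * p ^ (l : ℕ)) := by ring
          _ = (Q0 * q) * (Q0 * q ^ (l : ℕ)) := by rw [h10, ih]
          _ = Q0 * (Q0 * q ^ ((l : ℕ) + 1)) := by ring
    have h2 := key (Fin.last j)
    rw [Fin.val_last] at h2
    have h3 : p ^ j ∣ Q0 := by
      have h4 : p ^ j ∣ Q0 * q ^ j := ⟨Q (Fin.last j), by rw [← h2]; ring⟩
      exact (hcop.pow (m := j) (n := j)).dvd_of_dvd_mul_right h4
    obtain ⟨ρ, hρ⟩ := h3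
    refine ⟨ρ, p, q, hcop, ?_⟩
    funext l
    rw [vec_apply]
    have hl : (l : ℕ) ≤ j := by omega
    refine mul_right_cancel₀ (pow_ne_zero (l : ℕ) hp0) ?_
    rw [key l, hρ]
    have : p ^ j = p ^ (j - (l : ℕ)) * p ^ (l : ℕ) := by rw [← pow_add, Nat.sub_add_cancel hl]
    rw [this]; ring

/-- a polynomial with `pq' = p'q` -/
lemma prop_of_coprime {p q p' q' : ℂ[X]} (hpq : IsCoprime p q) (he : p * q' = p' * q) :
    ∃ c, p' = p * c ∧ q' = q * c := by
  obtain ⟨x, y, hxy⟩ := hpq
  refine ⟨x * p' + y * q', ?_, ?_⟩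
  · calc p' = p' * (x * p + y * q) := by rw [hxy, mul_one]
      _ = x * p * p' + y * (p' * q) := by ring
      _ = x * p * p' + y * (p * q') := by rw [he]
      _ = p * (x * p' + y * q') := by ring
  · calc q' = q' * (x * p + y * q) := by rw [hxy, mul_one]
      _ = x * (p * q') + y * q * q' := by ring
      _ = x * (p' * q) + y * q * q' := by rw [he]
      _ = q * (x * p' + y * q') := by ring

/-- the single lines -/
def Sing (B : Fin h → Finset ℂ) : Finset (Fin h) := univ.filter fun k => (B k).card = 1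

open Classical in
/-- the single lines hit by the curve -/
def SH (a : Fin h → ℂ) (B : Fin h → Finset ℂ) (p q : ℂ[X]) : Finset (Fin h) :=
  univ.filter fun k => (B k).card = 1 ∧ Hit a B p q k

lemma mem_Sing {k : Fin h} : k ∈ Sing B ↔ (B k).card = 1 := by simp [Sing]
lemma mem_SH {p q : ℂ[X]} {k : Fin h} : k ∈ SH a B p q ↔ (B k).card = 1 ∧ Hit a B p q k := by
  simp [SH]

lemma SH_subset (p q : ℂ[X]) : SH a B p q ⊆ Sing B := by
  intro k hk
  rw [mem_SH] at hk
  exact mem_Sing.mpr hk.1

/-- two coprime pairs with many hits in common are proportional -/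
lemma cross_eq_zero (ha : Function.Injective a) {p q p' q' : ℂ[X]} {d e : ℕ}
    (hd1 : p.natDegree ≤ d) (hd2 : q.natDegree ≤ d) (he1 : p'.natDegree ≤ e)
    (he2 : q'.natDegree ≤ e) (T : Finset (Fin h)) (hT : d + e < T.card)
    (h1 : ∀ k ∈ T, ∃ b, q.eval (a k) = b * p.eval (a k) ∧ q'.eval (a k) = b * p'.eval (a k)) :
    p * q' = p' * q := by
  rw [← sub_eq_zero]
  by_contra hne
  have h2 : (∏ k ∈ T, (X - C (a k)) ^ ((fun _ => 1) k)) ∣ (p * q' - p' * q) := by
    rw [prod_pow_dvd T a ha.injOn]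
    intro k hk
    rw [pow_one, dvd_iff_isRoot, IsRoot.def]
    obtain ⟨b, hb1, hb2⟩ := h1 k hk
    rw [eval_sub, eval_mul, eval_mul, hb1, hb2]
    ring
  have h3 := natDegree_le_of_dvd h2 hne
  rw [natDegree_prod_pow, Finset.sum_const, smul_eq_mul, mul_one] at h3
  have h4 : (p * q' - p' * q).natDegree ≤ d + e := by
    refine (natDegree_sub_le _ _).trans (max_le ?_ ?_)
    · exact natDegree_mul_le.trans (Nat.add_le_add hd1 he2)
    · refine natDegree_mul_le.trans ?_
      rw [add_comm]
      exact Nat.add_le_add hd2 he1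
  omega

lemma hit_single {p q : ℂ[X]} {k : Fin h} {b : ℂ} (hb : B k = {b}) :
    Hit a B p q k ↔ q.eval (a k) = b * p.eval (a k) := by
  rw [Hit, hb]; simp

end
end FP97
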