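import Pool.Agent.helper97.FP.Curve2

namespace FP97
noncomputable section
open Polynomial Finset Module

variable {h : ℕ} {a : Fin h → ℂ} {B : Fin h → Finset ℂ}

lemma single_S1 {j : ℕ} {b : ℂ} {x : Fin (j+1) → ℂ} (hx : x ∈ S1 j {b}) :
    ∃ c : ℂ, ∀ l, x l = c * b ^ (l : ℕ) := by
  rw [S1, Finset.coe_singleton, Set.image_singleton, Submodule.mem_span_singleton] at hx
  obtain ⟨c, rfl⟩ := hx
  exact ⟨c, fun l => rfl⟩

lemma single_S2 {j : ℕ} {b : ℂ} {x : Fin (j+1) → ℂ} (hx : x ∈ S2 j {b}) :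
    ∃ c c' : ℂ, ∀ l, x l = c * b ^ (l : ℕ) + c' * ((l : ℕ) * b ^ ((l : ℕ) - 1)) := by
  rw [S2, Finset.coe_singleton, Set.image_singleton, Set.image_singleton, Set.union_singleton,
    Submodule.mem_span_pair] at hx
  obtain ⟨c, c', rfl⟩ := hx
  refine ⟨c', c, fun l => ?_⟩
  simp only [Pi.add_apply, Pi.smul_apply, smul_eq_mul, nu, nu']
  ring

lemma natDegree_le_of_mem {P : ℂ[X]} {d : ℕ} (hP : P ∈ degreeLT ℂ d) : P.natDegree ≤ d - 1 := by
  by_cases h0 : P = 0
  · subst h0; simp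
  · rw [mem_degreeLT, degree_eq_natDegree h0] at hP
    have : P.natDegree < d := by exact_mod_cast hP
    omega

lemma eq_zero_of_mem_zero {P : ℂ[X]} (hP : P ∈ degreeLT ℂ 0) : P = 0 := by
  rw [mem_degreeLT] at hP
  simpa [degree_lt_iff_coeff_zero, Polynomial.ext_iff] using hP

lemma natpow (b : ℂ) (n : ℕ) : (n : ℂ) * b ^ (n - 1) * b = n * b ^ n := by
  rcases n with _ | n
  · simp
  · rw [Nat.add_sub_cancel, pow_succ]; ring

lemma minor_zero (ha : Function.Injective a) {j d : ℕ} (hd : d ≤ (Sing B).card)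
    {Q : Fin (j+1) → ℂ[X]} (hQ : Q ∈ QS a B j d) (l m : Fin j) :
    Q l.castSucc * Q m.succ = Q l.succ * Q m.castSucc := by
  rw [← sub_eq_zero]
  by_contra hne
  have hd0 : 0 < d := by
    rcases Nat.eq_zero_or_pos d with h0 | h0
    · exfalso
      subst h0
      apply hne
      rw [eq_zero_of_mem_zero (hQ.1 l.castSucc), eq_zero_of_mem_zero (hQ.1 l.succ)]
      ring
    · exact h0
  have h2 : (∏ k ∈ Sing B, (X - C (a k)) ^ ((fun _ => 2) k)) ∣
      (Q l.castSucc * Q m.succ - Q l.succ * Q m.castSucc) := by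
    rw [prod_pow_dvd (Sing B) a ha.injOn]
    intro k hk
    rw [mem_Sing, Finset.card_eq_one] at hk
    obtain ⟨b, hb⟩ := hk
    obtain ⟨h3, h4⟩ := hQ.2 k
    rw [hb] at h3 h4
    obtain ⟨c, hc⟩ := single_S1 h3
    obtain ⟨c', c'', hc'⟩ := single_S2 h4
    have e1 := hc l.castSucc
    have e2 := hc l.succ
    have e3 := hc m.castSucc
    have e4 := hc m.succ
    have f1 := hc' l.castSucc
    have f2 := hc' l.succ
    have f3 := hc' m.castSucc
    have f4 := hc' m.succ
    simp only [Fin.val_castSucc, Fin.val_succ, Nat.add_sub_cancel, Nat.cast_add, Nat.cast_one]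
      at e1 e2 e3 e4 f1 f2 f3 f4
    rw [sq_dvd_iff]
    constructor
    · rw [eval_sub, eval_mul, eval_mul, e1, e2, e3, e4]; ring
    · rw [derivative_sub, derivative_mul, derivative_mul, eval_sub, eval_add, eval_add, eval_mul,
        eval_mul, eval_mul, eval_mul, e1, e2, e3, e4, f1, f2, f3, f4]
      have n1 := natpow b (l : ℕ)
      have n2 := natpow b (m : ℕ)
      linear_combination (c * c'' * b ^ (m : ℕ)) * n1 - (c * c'' * b ^ (l : ℕ)) * n2
  have h3 := natDegree_le_of_dvd h2 hne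
  rw [natDegree_prod_pow, Finset.sum_const, smul_eq_mul] at h3
  have h4 : (Q l.castSucc * Q m.succ - Q l.succ * Q m.castSucc).natDegree ≤ (d-1) + (d-1) := by
    refine (natDegree_sub_le _ _).trans (max_le ?_ ?_)
    · exact natDegree_mul_le.trans (Nat.add_le_add (natDegree_le_of_mem (hQ.1 _))
        (natDegree_le_of_mem (hQ.1 _)))
    · exact natDegree_mul_le.trans (Nat.add_le_add (natDegree_le_of_mem (hQ.1 _))
        (natDegree_le_of_mem (hQ.1 _)))
  omega

lemma hit_both {p q : ℂ[X]} {k : Fin h} {p' q' : ℂ[X]} (h1 : k ∈ SH a B p q)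
    (h2 : k ∈ SH a B p' q') :
    ∃ b, q.eval (a k) = b * p.eval (a k) ∧ q'.eval (a k) = b * p'.eval (a k) := by
  rw [mem_SH] at h1 h2
  obtain ⟨b, hb⟩ := Finset.card_eq_one.mp h1.1
  exact ⟨b, (hit_single hb).mp h1.2, (hit_single hb).mp h2.2⟩

theorem all_vec (ha : Function.Injective a) {p q : ℂ[X]} (hpq : IsCoprime p q)
    (href : 2 * max p.natDegree q.natDegree + (Sing B).card ≤ 2 * (SH a B p q).card)
    {j d : ℕ} (hj : 2 ≤ j) (hd : d ≤ (Sing B).card) :
    ∀ Q ∈ QS a B j d, ∃ ρ, Q = vec p q j ρ := by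
  intro Q hQ
  obtain ⟨ρ, p', q', hpq', rfl⟩ := struct (by omega) Q (minor_zero ha hd hQ)
  by_cases hρ : ρ = 0
  · exact ⟨0, by rw [hρ, map_zero, map_zero]⟩
  rw [vec_mem_iff ha hpq', mem_mults] at hQ
  obtain ⟨h1, h2⟩ := hQ
  have h3 := natDegree_le_of_dvd h2 hρ
  rw [natDegree_MM] at h3
  rw [mem_degreeLT, degree_eq_natDegree hρ] at h1
  have h4 : ρ.natDegree < d - j * max p'.natDegree q'.natDegree := by exact_mod_cast h1
  have h5 : 2 * ((Sing B).card - (SH a B p' q').card) ≤ ∑ k, tt j (B k).card (Hit a B p' q' k) := by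
    rw [← Finset.card_sdiff_of_subset (SH_subset p' q'), mul_comm, ← smul_eq_mul,
      ← Finset.sum_const]
    refine (Finset.sum_le_sum fun k hk => ?_).trans
      (Finset.sum_le_sum_of_subset (Finset.subset_univ _))
    rw [Finset.mem_sdiff, mem_Sing, mem_SH, not_and] at hk
    have h6 := hk.2 hk.1
    rw [tt, if_neg h6, if_pos (by rw [hk.1]; omega)]
  have h6 : 2 * max p'.natDegree q'.natDegree ≤ j * max p'.natDegree q'.natDegree :=
    Nat.mul_le_mul_right _ hj
  have h7 := Finset.card_le_card (Finset.union_subset (SH_subset p q) (SH_subset p' q')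
    : SH a B p q ∪ SH a B p' q' ⊆ Sing B)
  have h8 := Finset.card_union_add_card_inter (SH a B p q) (SH a B p' q')
  have h9 := Finset.card_le_card (SH_subset (a := a) (B := B) p' q')
  have h10 : p * q' = p' * q := by
    refine cross_eq_zero ha (le_max_left _ _) (le_max_right _ _) (le_max_left _ _)
      (le_max_right p'.natDegree q'.natDegree) (SH a B p q ∩ SH a B p' q') (by omega) ?_
    intro k hk
    rw [Finset.mem_inter] at hk
    exact hit_both hk.1 hk.2
  obtain ⟨c, hc1, hc2⟩ := prop_of_coprime hpq h10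
  refine ⟨ρ * c ^ j, ?_⟩
  funext l
  rw [vec_apply, vec_apply, hc1, hc2, mul_pow, mul_pow]
  have hl : (l : ℕ) ≤ j := by omega
  have : c ^ j = c ^ (j - (l : ℕ)) * c ^ (l : ℕ) := by rw [← pow_add, Nat.sub_add_cancel hl]
  rw [this]; ring

lemma all_vec_zero {p q : ℂ[X]} {d : ℕ} : ∀ Q ∈ QS a B 0 d, ∃ ρ, Q = vec p q 0 ρ := by
  intro Q _
  refine ⟨Q 0, ?_⟩
  funext l
  have : l = 0 := Fin.ext (by rw [Fin.val_zero]; omega)
  subst this
  simp [vec_apply]

lemma all_vec_one (ha : Function.Injective a) {p q : ℂ[X]} (hpq : IsCoprime p q)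
    {d : ℕ} (hd : d ≤ (SH a B p q).card - max p.natDegree q.natDegree) :
    ∀ Q ∈ QS a B 1 d, ∃ ρ, Q = vec p q 1 ρ := by
  intro Q hQ
  rcases Nat.eq_zero_or_pos d with h0 | h0
  · subst h0
    refine ⟨0, ?_⟩
    rw [map_zero]
    funext l
    exact eq_zero_of_mem_zero (hQ.1 l)
  have h10 : p * Q 1 = Q 0 * q := by
    refine cross_eq_zero ha (le_max_left p.natDegree q.natDegree) (le_max_right _ _)
      (natDegree_le_of_mem (hQ.1 0)) (natDegree_le_of_mem (hQ.1 1)) (SH a B p q) (by omega) ?_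
    intro k hk
    rw [mem_SH] at hk
    obtain ⟨b, hb⟩ := Finset.card_eq_one.mp hk.1
    refine ⟨b, (hit_single hb).mp hk.2, ?_⟩
    have h3 := (hQ.2 k).1
    rw [hb] at h3
    obtain ⟨c, hc⟩ := single_S1 h3
    have e0 := hc 0
    have e1 := hc 1
    simp only [Fin.val_zero, Fin.val_one, pow_zero, pow_one, mul_one] at e0 e1
    rw [e0, e1]; ring
  obtain ⟨c, hc1, hc2⟩ := prop_of_coprime hpq h10
  refine ⟨c, ?_⟩
  funext l
  fin_cases l
  · show Q 0 = _
    rw [vec_apply, hc1]; simp; ring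
  · show Q 1 = _
    rw [vec_apply, hc2]; simp; ring

instance (j d : ℕ) : FiniteDimensional ℂ (QS a B j d) := by
  let f : QS a B j d →ₗ[ℂ] (Fin (j+1) → degreeLT ℂ d) :=
    { toFun := fun Q l => ⟨Q.1 l, Q.2.1 l⟩
      map_add' := fun x y => rfl
      map_smul' := fun c x => rfl }
  have hf : Function.Injective f := by
    intro x y hxy
    apply Subtype.ext
    funext l
    exact congrArg Subtype.val (congrFun hxy l)
  have : FiniteDimensional ℂ (degreeLT ℂ d) := (degreeLTEquiv ℂ d).symm.finiteDimensional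
  exact FiniteDimensional.of_injective f hf

lemma finrank_QS_succ_le (j d : ℕ) :
    finrank ℂ (QS a B j (d+1)) ≤ finrank ℂ (QS a B j d) + (j+1) := by
  let φ : QS a B j (d+1) →ₗ[ℂ] (Fin (j+1) → ℂ) :=
    { toFun := fun Q l => (Q.1 l).coeff d
      map_add' := fun x y => by funext l; simp
      map_smul' := fun c x => by funext l; simp }
  have h1 := LinearMap.finrank_range_add_finrank_ker φ
  have h2 : finrank ℂ (LinearMap.range φ) ≤ j + 1 := by
    have := (LinearMap.range φ).finrank_le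
    rwa [Module.finrank_fintype_fun_eq_card, Fintype.card_fin] at this
  have h3 : finrank ℂ (LinearMap.ker φ) ≤ finrank ℂ (QS a B j d) := by
    rw [(Submodule.equivMapOfInjective _ (Submodule.injective_subtype (QS a B j (d+1)))
      (LinearMap.ker φ)).finrank_eq]
    refine Submodule.finrank_mono ?_
    intro Q hQ
    rw [Submodule.mem_map] at hQ
    obtain ⟨R, hR1, hR2⟩ := hQ
    rw [← hR2]
    refine ⟨fun l => mem_degreeLT_pred (R.2.1 l) ?_, R.2.2⟩
    rw [LinearMap.mem_ker] at hR1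
    exact congrFun hR1 l
  omega

lemma finrank_QS_add_le (j d t : ℕ) :
    finrank ℂ (QS a B j (d+t)) ≤ finrank ℂ (QS a B j d) + t * (j+1) := by
  induction t with
  | zero => simp
  | succ t ih =>
    have := finrank_QS_succ_le (a := a) (B := B) j (d+t)
    rw [← add_assoc, add_mul, one_mul]
    omega

end
end FP97
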