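import Pool.Agent.helper97.FP.Herm

namespace FP97
noncomputable section
open Polynomial Finset Module

variable {h : ℕ}

/-- pairs of jets -/
abbrev Jet (h j : ℕ) : Type := (Fin h → Fin (j+1) → ℂ) × (Fin h → Fin (j+1) → ℂ)

/-- component `l` of a jet -/
def comp {h j : ℕ} (l : Fin (j+1)) (x : Jet h j) : (Fin h → ℂ) × (Fin h → ℂ) :=
  (fun k => x.1 k l, fun k => x.2 k l)

variable (a : Fin h → ℂ) (B : Fin h → Finset ℂ)

/-- vector version of `gam1` -/
def Gam (j : ℕ) : Jet h j →ₗ[ℂ] (Fin (j+1) → ℂ[X]) where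
  toFun x l := gam1 a (comp l x)
  map_add' x y := by
    funext l
    have : comp l (x + y) = comp l x + comp l y := rfl
    rw [this, map_add]; rfl
  map_smul' c x := by
    funext l
    have : comp l (c • x) = c • comp l x := rfl
    rw [this, map_smul]; rfl

lemma Gam_apply (j : ℕ) (x : Jet h j) (l : Fin (j+1)) : Gam a j x l = gam1 a (comp l x) := rfl

/-- the moments -/
def sM (i j : ℕ) : Jet h j →ₗ[ℂ] (Fin (i+1) × Fin (j+1) → ℂ) where
  toFun x p := mom a p.1 (comp p.2 x)
  map_add' x y := by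
    funext p
    simp only [mom, comp, Prod.fst_add, Prod.snd_add, Pi.add_apply, ← Finset.sum_add_distrib]
    exact Finset.sum_congr rfl fun k _ => by ring
  map_smul' c x := by
    funext p
    simp only [mom, comp, Prod.smul_fst, Prod.smul_snd, Pi.smul_apply, smul_eq_mul,
      RingHom.id_apply, Finset.mul_sum]
    exact Finset.sum_congr rfl fun k _ => by ring

lemma sM_apply (i j : ℕ) (x : Jet h j) (p : Fin (i+1) × Fin (j+1)) :
    sM a i j x p = mom a p.1 (comp p.2 x) := rfl

/-- the local conditions -/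
def Loc (j : ℕ) : Submodule ℂ (Jet h j) where
  carrier := {x | ∀ k, x.1 k ∈ S2 j (B k) ∧ x.2 k ∈ S1 j (B k)}
  add_mem' := fun hx hy k => ⟨add_mem (hx k).1 (hy k).1, add_mem (hx k).2 (hy k).2⟩
  zero_mem' := fun k => ⟨zero_mem _, zero_mem _⟩
  smul_mem' := fun c _ hx k => ⟨Submodule.smul_mem _ _ (hx k).1, Submodule.smul_mem _ _ (hx k).2⟩

lemma mem_Loc {j : ℕ} {x : Jet h j} :
    x ∈ Loc B j ↔ ∀ k, x.1 k ∈ S2 j (B k) ∧ x.2 k ∈ S1 j (B k) := Iff.rfl

/-- the dual space -/
def QS (j d : ℕ) : Submodule ℂ (Fin (j+1) → ℂ[X]) where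
  carrier := {Q | (∀ l, Q l ∈ degreeLT ℂ d) ∧ ∀ k, (fun l => (Q l).eval (a k)) ∈ S1 j (B k) ∧
    (fun l => (derivative (Q l)).eval (a k)) ∈ S2 j (B k)}
  add_mem' := by
    rintro P Q ⟨hP1, hP2⟩ ⟨hQ1, hQ2⟩
    refine ⟨fun l => add_mem (hP1 l) (hQ1 l), fun k => ⟨?_, ?_⟩⟩
    · simp only [Pi.add_apply, eval_add]
      exact add_mem (hP2 k).1 (hQ2 k).1
    · simp only [Pi.add_apply, derivative_add, eval_add]
      exact add_mem (hP2 k).2 (hQ2 k).2
  zero_mem' := by
    refine ⟨fun l => zero_mem _, fun k => ⟨?_, ?_⟩⟩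
    · simp only [Pi.zero_apply, eval_zero]; exact zero_mem _
    · simp only [Pi.zero_apply, derivative_zero, eval_zero]; exact zero_mem _
  smul_mem' := by
    rintro c P ⟨hP1, hP2⟩
    refine ⟨fun l => Submodule.smul_mem _ _ (hP1 l), fun k => ⟨?_, ?_⟩⟩
    · simp only [Pi.smul_apply, eval_smul]
      exact Submodule.smul_mem _ c (hP2 k).1
    · simp only [Pi.smul_apply, derivative_smul, eval_smul]
      exact Submodule.smul_mem _ c (hP2 k).2

variable {a B}

lemma mem_QS {j d : ℕ} {Q : Fin (j+1) → ℂ[X]} : Q ∈ QS a B j d ↔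
    (∀ l, Q l ∈ degreeLT ℂ d) ∧ ∀ k, (fun l => (Q l).eval (a k)) ∈ S1 j (B k) ∧
    (fun l => (derivative (Q l)).eval (a k)) ∈ S2 j (B k) := Iff.rfl

lemma Gam_injective (ha : Function.Injective a) (j : ℕ) : Function.Injective (Gam a j) := by
  intro x y hxy
  have h1 : ∀ l, comp l x = comp l y := fun l => gam1_injective ha (congrFun hxy l)
  refine Prod.ext ?_ ?_
  · funext k l
    exact congrFun (congrArg Prod.fst (h1 l)) k
  · funext k l
    exact congrFun (congrArg Prod.snd (h1 l)) k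

lemma mem_ker_sM {i j : ℕ} {x : Jet h j} :
    x ∈ LinearMap.ker (sM a i j) ↔ ∀ l, Gam a j x l ∈ degreeLT ℂ (2 * h - 1 - i) := by
  rw [LinearMap.mem_ker]
  constructor
  · intro hx l
    rw [Gam_apply, ← mom_iff]
    intro m hm
    have := congrFun hx (⟨m, by omega⟩, l)
    exact this
  · intro hx
    funext p
    rw [sM_apply]
    exact (mom_iff a i _).mpr (hx p.2) p.1 (by omega)

lemma loc_iff (ha : Function.Injective a) {j : ℕ} {x : Jet h j} :
    x ∈ Loc B j ↔ ∀ k, (fun l => (Gam a j x l).eval (a k)) ∈ S1 j (B k) ∧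
    (fun l => (derivative (Gam a j x l)).eval (a k)) ∈ S2 j (B k) := by
  rw [mem_Loc]
  refine forall_congr' fun k => ?_
  have hδ := Dk_eval_ne ha k
  have e1 : (fun l => (Gam a j x l).eval (a k)) = ((Dk a k).eval (a k)) ^ 2 • x.2 k := by
    funext l
    rw [Gam_apply, gam1_eval]
    simp only [comp, Pi.smul_apply, smul_eq_mul]
    ring
  have e2 : (fun l => (derivative (Gam a j x l)).eval (a k)) =
      ((Dk a k).eval (a k)) ^ 2 • x.1 k +
        (2 * (Dk a k).eval (a k) * (derivative (Dk a k)).eval (a k)) • x.2 k := by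
    funext l
    rw [Gam_apply, gam1_deriv_eval]
    simp only [comp, Pi.smul_apply, Pi.add_apply, smul_eq_mul]
    ring
  rw [e1, e2]
  constructor
  · rintro ⟨h1, h2⟩
    exact ⟨Submodule.smul_mem _ _ h2, add_mem (Submodule.smul_mem _ _ h1)
      (Submodule.smul_mem _ _ (S1_le_S2 _ _ h2))⟩
  · rintro ⟨h1, h2⟩
    have h3 : x.2 k ∈ S1 j (B k) := (Submodule.smul_mem_iff _ (pow_ne_zero 2 hδ)).mp h1
    refine ⟨?_, h3⟩
    have h4 := sub_mem h2 (Submodule.smul_mem (S2 j (B k))
      (2 * (Dk a k).eval (a k) * (derivative (Dk a k)).eval (a k)) (S1_le_S2 _ _ h3))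
    rw [add_sub_cancel_right] at h4
    exact (Submodule.smul_mem_iff _ (pow_ne_zero 2 hδ)).mp h4

lemma map_Gam (ha : Function.Injective a) (i j : ℕ) :
    (Loc B j ⊓ LinearMap.ker (sM a i j)).map (Gam a j) = QS a B j (2 * h - 1 - i) := by
  ext Q
  rw [Submodule.mem_map, mem_QS]
  constructor
  · rintro ⟨x, ⟨h1, h2⟩, rfl⟩
    exact ⟨mem_ker_sM.mp h2, (loc_iff ha).mp h1⟩
  · rintro ⟨h1, h2⟩
    have h3 : ∀ l, ∃ c, gam1 a c = Q l := fun l =>
      gam1_surj ha (degreeLT_mono (by omega) (h1 l))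
    choose c hc using h3
    let x : Jet h j := (fun k l => (c l).1 k, fun k l => (c l).2 k)
    have hx : Gam a j x = Q := by
      funext l
      rw [Gam_apply, ← hc l]
      rfl
    refine ⟨x, ⟨(loc_iff ha).mpr ?_, mem_ker_sM.mpr ?_⟩, hx⟩
    · rw [hx]; exact h2
    · rw [hx]; exact h1

lemma finrank_Loc (j : ℕ) : finrank ℂ (Loc B j) =
    ∑ k, (min (j+1) (2 * (B k).card) + min (j+1) (B k).card) := by
  let e : Loc B j ≃ₗ[ℂ] ((∀ k, S2 j (B k)) × (∀ k, S1 j (B k))) :=
    { toFun := fun x => (fun k => ⟨x.1.1 k, (x.2 k).1⟩, fun k => ⟨x.1.2 k, (x.2 k).2⟩)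
      map_add' := fun x y => rfl
      map_smul' := fun c x => rfl
      invFun := fun y => ⟨(fun k => (y.1 k).1, fun k => (y.2 k).1), fun k => ⟨(y.1 k).2, (y.2 k).2⟩⟩
      left_inv := fun x => rfl
      right_inv := fun y => rfl }
  rw [e.finrank_eq, Module.finrank_prod, Module.finrank_pi_fintype, Module.finrank_pi_fintype,
    ← Finset.sum_add_distrib]
  refine Finset.sum_congr rfl fun k _ => ?_
  rw [finrank_S1, finrank_S2]

variable (a B)

/-- coefficients of forms of bidegree `(i,j)` vanishing doubly at all points `(a k, b)`, `b ∈ B k` -/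
def WW (i j : ℕ) : Submodule ℂ (Fin (i+1) × Fin (j+1) → ℂ) where
  carrier := {v | ∀ k, ∀ b ∈ B k,
    (∑ p, v p * (a k ^ (p.1 : ℕ) * b ^ (p.2 : ℕ)) = 0) ∧
    (∑ p, v p * (((p.1 : ℕ) * a k ^ ((p.1 : ℕ) - 1)) * b ^ (p.2 : ℕ)) = 0) ∧
    (∑ p, v p * (a k ^ (p.1 : ℕ) * ((p.2 : ℕ) * b ^ ((p.2 : ℕ) - 1))) = 0)}
  add_mem' := by
    intro v w hv hw k b hb
    obtain ⟨h1, h2, h3⟩ := hv k b hb
    obtain ⟨h4, h5, h6⟩ := hw k b hb
    simp only [Pi.add_apply, add_mul, Finset.sum_add_distrib, h1, h2, h3, h4, h5, h6, add_zero,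
      and_self]
  zero_mem' := by intro k b _; simp
  smul_mem' := by
    intro c v hv k b hb
    obtain ⟨h1, h2, h3⟩ := hv k b hb
    simp only [Pi.smul_apply, smul_eq_mul, mul_assoc c, ← Finset.mul_sum, h1, h2, h3, mul_zero,
      and_self]

variable {a B}

lemma pair_eq {i j : ℕ} (v : Fin (i+1) × Fin (j+1) → ℂ) (x : Jet h j) :
    ∑ p, v p * sM a i j x p = ∑ k, ((∑ l, (∑ m : Fin (i+1), v (m, l) * a k ^ (m : ℕ)) * x.1 k l) +
      ∑ l, (∑ m : Fin (i+1), v (m, l) * ((m : ℕ) * a k ^ ((m : ℕ) - 1))) * x.2 k l) := by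
  simp only [sM_apply, mom, comp, Finset.mul_sum, Finset.sum_mul, Fintype.sum_prod_type]
  simp only [← Finset.sum_add_distrib]
  rw [Finset.sum_comm]
  rw [Finset.sum_congr rfl fun l _ => Finset.sum_comm]
  rw [Finset.sum_comm]
  refine Finset.sum_congr rfl fun k _ => Finset.sum_congr rfl fun l _ =>
    Finset.sum_congr rfl fun m _ => ?_
  ring

lemma WW_eq (i j : ℕ) : WW a B i j = orth ((Loc B j).map (sM a i j)) := by
  ext v
  constructor
  · intro hv
    rw [mem_orth]
    rintro _ ⟨x, hx, rfl⟩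
    rw [pair_eq]
    refine Finset.sum_eq_zero fun k _ => ?_
    obtain ⟨hx1, hx2⟩ := hx k
    have e1 : ∑ l, (∑ m : Fin (i+1), v (m, l) * a k ^ (m : ℕ)) * x.1 k l = 0 := by
      refine sum_mul_eq_zero_of_span ?_ hx1
      rintro _ (⟨b, hb, rfl⟩ | ⟨b, hb, rfl⟩)
      · have := (hv k b hb).1
        rw [Fintype.sum_prod_type, Finset.sum_comm] at this
        rw [← this]
        refine Finset.sum_congr rfl fun l _ => ?_
        rw [Finset.sum_mul]
        exact Finset.sum_congr rfl fun m _ => by simp only [nu]; ring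
      · have := (hv k b hb).2.2
        rw [Fintype.sum_prod_type, Finset.sum_comm] at this
        rw [← this]
        refine Finset.sum_congr rfl fun l _ => ?_
        rw [Finset.sum_mul]
        exact Finset.sum_congr rfl fun m _ => by simp only [nu']; ring
    have e2 : ∑ l, (∑ m : Fin (i+1), v (m, l) * ((m : ℕ) * a k ^ ((m : ℕ) - 1))) * x.2 k l = 0 := by
      refine sum_mul_eq_zero_of_span ?_ hx2
      rintro _ ⟨b, hb, rfl⟩
      have := (hv k b hb).2.1
      rw [Fintype.sum_prod_type, Finset.sum_comm] at this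
      rw [← this]
      refine Finset.sum_congr rfl fun l _ => ?_
      rw [Finset.sum_mul]
      exact Finset.sum_congr rfl fun m _ => by simp only [nu]; ring
    rw [e1, e2, add_zero]
  · intro hv k b hb
    rw [mem_orth] at hv
    have key : ∀ y1 y2 : Fin (j+1) → ℂ, y1 ∈ S2 j (B k) → y2 ∈ S1 j (B k) →
        (∑ l, (∑ m : Fin (i+1), v (m, l) * a k ^ (m : ℕ)) * y1 l) +
        ∑ l, (∑ m : Fin (i+1), v (m, l) * ((m : ℕ) * a k ^ ((m : ℕ) - 1))) * y2 l = 0 := by
      intro y1 y2 hy1 hy2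
      have hx : ((Pi.single k y1, Pi.single k y2) : Jet h j) ∈ Loc B j := by
        intro k'
        by_cases hk : k' = k
        · subst hk; simp only [Pi.single_eq_same]; exact ⟨hy1, hy2⟩
        · simp only [Pi.single_eq_of_ne hk]; exact ⟨zero_mem _, zero_mem _⟩
      have h1 := hv _ ⟨_, hx, rfl⟩
      rw [pair_eq, Finset.sum_eq_single k] at h1
      · simpa only [Pi.single_eq_same] using h1
      · intro k' _ hk'
        simp only [Pi.single_eq_of_ne hk', Pi.zero_apply, mul_zero, Finset.sum_const_zero, add_zero]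
      · intro hk; exact absurd (mem_univ k) hk
    have z : ∀ f : Fin (j+1) → ℂ, ∑ l, f l * (0 : Fin (j+1) → ℂ) l = 0 := by intro f; simp
    refine ⟨?_, ?_, ?_⟩
    · have := key (nu j b) 0 (nu_mem_S2 hb) (zero_mem _)
      rw [z, add_zero] at this
      rw [Fintype.sum_prod_type, Finset.sum_comm, ← this]
      refine Finset.sum_congr rfl fun l _ => ?_
      rw [Finset.sum_mul]
      exact Finset.sum_congr rfl fun m _ => by simp only [nu]; ring
    · have := key 0 (nu j b) (zero_mem _) (nu_mem_S1 hb)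
      rw [z, zero_add] at this
      rw [Fintype.sum_prod_type, Finset.sum_comm, ← this]
      refine Finset.sum_congr rfl fun l _ => ?_
      rw [Finset.sum_mul]
      exact Finset.sum_congr rfl fun m _ => by simp only [nu]; ring
    · have := key (nu' j b) 0 (nu'_mem_S2 hb) (zero_mem _)
      rw [z, add_zero] at this
      rw [Fintype.sum_prod_type, Finset.sum_comm, ← this]
      refine Finset.sum_congr rfl fun l _ => ?_
      rw [Finset.sum_mul]
      exact Finset.sum_congr rfl fun m _ => by simp only [nu']; ring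

/-- **Duality**: the Hilbert function in terms of the dual space. -/
theorem duality (ha : Function.Injective a) (i j : ℕ) :
    (i + 1) * (j + 1) - finrank ℂ (WW a B i j) + finrank ℂ (QS a B j (2 * h - 1 - i)) =
      ∑ k, (min (j+1) (2 * (B k).card) + min (j+1) (B k).card) := by
  have h1 := finrank_orth ((Loc B j).map (sM a i j))
  rw [← WW_eq, Fintype.card_prod, Fintype.card_fin, Fintype.card_fin] at h1
  have h2 := LinearMap.finrank_range_add_finrank_ker ((sM a i j).domRestrict (Loc B j))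
  rw [finrank_Loc, LinearMap.range_domRestrict] at h2
  have h3 : finrank ℂ (LinearMap.ker ((sM a i j).domRestrict (Loc B j))) =
      finrank ℂ (QS a B j (2 * h - 1 - i)) := by
    rw [← map_Gam ha, ← (Submodule.equivMapOfInjective _ (Gam_injective ha j) _).finrank_eq]
    rw [LinearMap.ker_domRestrict]
    have : (Submodule.comap (Loc B j).subtype (LinearMap.ker (sM a i j))).map (Loc B j).subtype =
      Loc B j ⊓ LinearMap.ker (sM a i j) := by
      rw [Submodule.map_comap_subtype]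
    rw [← this]
    exact (Submodule.equivMapOfInjective _ (Submodule.injective_subtype _) _).finrank_eq
  rw [h3] at h2
  rw [← h2, ← h1, Nat.add_sub_cancel]

end
end FP97
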