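import Pool.Agent.helper97.FP.Aff

namespace FP97
noncomputable section
open Finset Module
open Pool.Agent.helper97.FP

abbrev R4 : Type := MvPolynomial (Fin 4) ℂ

/-- coefficient space -/
abbrev VV (i j : ℕ) : Type := Fin (i+1) × Fin (j+1) → ℂ

def m1 (t : ℂ) : R4 := MvPolynomial.X 0 + MvPolynomial.C t * MvPolynomial.X 1
def m2 (s : ℂ) : R4 := MvPolynomial.X 2 + MvPolynomial.C s * MvPolynomial.X 3

/-- the form with given coefficients -/
def Th (t s : ℂ) (i j : ℕ) : VV i j →ₗ[ℂ] R4 where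
  toFun v := ∑ p, MvPolynomial.C (v p) * ((MvPolynomial.X 1 ^ (p.1 : ℕ) * m1 t ^ (i - (p.1 : ℕ))) *
    (MvPolynomial.X 3 ^ (p.2 : ℕ) * m2 s ^ (j - (p.2 : ℕ))))
  map_add' x y := by
    rw [← Finset.sum_add_distrib]
    refine Finset.sum_congr rfl fun p _ => ?_
    rw [Pi.add_apply, MvPolynomial.C_add]; ring
  map_smul' c x := by
    rw [RingHom.id_apply, Finset.smul_sum]
    refine Finset.sum_congr rfl fun p _ => ?_
    rw [Pi.smul_apply, smul_eq_mul, MvPolynomial.C_mul, MvPolynomial.smul_eq_C_mul]; ring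

lemma Th_apply (t s : ℂ) (i j : ℕ) (v : VV i j) : Th t s i j v =
  ∑ p, MvPolynomial.C (v p) * ((MvPolynomial.X 1 ^ (p.1 : ℕ) * m1 t ^ (i - (p.1 : ℕ))) *
    (MvPolynomial.X 3 ^ (p.2 : ℕ) * m2 s ^ (j - (p.2 : ℕ)))) := rfl

/-- evaluation of `Th` along an algebra map with `m1, m2 ↦ 1` -/
lemma map_Th {A : Type*} [CommRing A] [Algebra ℂ A] (φ : R4 →ₐ[ℂ] A) {t s : ℂ} (i j : ℕ)
    (v : VV i j) (h1 : φ (m1 t) = 1) (h2 : φ (m2 s) = 1) :
    φ (Th t s i j v) = ∑ p, algebraMap ℂ A (v p) *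
      (φ (MvPolynomial.X 1) ^ (p.1 : ℕ) * φ (MvPolynomial.X 3) ^ (p.2 : ℕ)) := by
  rw [Th_apply, map_sum]
  refine Finset.sum_congr rfl fun p _ => ?_
  rw [map_mul, map_mul, map_mul, map_mul, map_pow, map_pow, map_pow, map_pow, h1, h2, one_pow,
    one_pow, mul_one, mul_one]
  congr 1
  exact φ.commutes (v p)

/-- the algebra map `x ↦ (1 - t x, x, 1 - s y, y)` -/
def ev {A : Type*} [CommRing A] [Algebra ℂ A] (t s : ℂ) (x y : A) : R4 →ₐ[ℂ] A :=
  MvPolynomial.aeval ![1 - algebraMap ℂ A t * x, x, 1 - algebraMap ℂ A s * y, y]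

section ev
variable {A : Type*} [CommRing A] [Algebra ℂ A] (t s : ℂ) (x y : A)
lemma ev_X0 : ev t s x y (MvPolynomial.X 0) = 1 - algebraMap ℂ A t * x := by simp [ev]
lemma ev_X1 : ev t s x y (MvPolynomial.X 1) = x := by simp [ev]
lemma ev_X2 : ev t s x y (MvPolynomial.X 2) = 1 - algebraMap ℂ A s * y := by simp [ev]
lemma ev_X3 : ev t s x y (MvPolynomial.X 3) = y := by simp [ev]
lemma ev_C (c : ℂ) : ev t s x y (MvPolynomial.C c) = algebraMap ℂ A c := (ev t s x y).commutes c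
lemma ev_m1 : ev t s x y (m1 t) = 1 := by
  rw [m1, map_add, map_mul, ev_X0, ev_X1, ev_C]; ring
lemma ev_m2 : ev t s x y (m2 s) = 1 := by
  rw [m2, map_add, map_mul, ev_X2, ev_X3, ev_C]; ring
lemma ev_Th (i j : ℕ) (v : VV i j) : ev t s x y (Th t s i j v) =
    ∑ p, algebraMap ℂ A (v p) * (x ^ (p.1 : ℕ) * y ^ (p.2 : ℕ)) := by
  rw [map_Th _ i j v (ev_m1 t s x y) (ev_m2 t s x y), ev_X1, ev_X3]
end ev

lemma coeff_zero_of_forall {N : ℕ} {c : Fin N → ℂ} (hc : ∀ x : ℂ, ∑ l : Fin N, c l * x ^ (l : ℕ) = 0) :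
    c = 0 := by
  apply toP_injective N
  rw [map_zero]
  refine Polynomial.funext fun x => ?_
  rw [toP_eval, hc x, Polynomial.eval_zero]

lemma Th_injective (t s : ℂ) (i j : ℕ) : Function.Injective (Th t s i j) := by
  rw [injective_iff_map_eq_zero]
  intro v hv
  have h1 : ∀ x y : ℂ, ∑ p, v p * (x ^ (p.1 : ℕ) * y ^ (p.2 : ℕ)) = 0 := by
    intro x y
    have := ev_Th t s x y i j v
    rw [hv, map_zero] at this
    exact this.symm
  have h2 : ∀ x : ℂ, (fun l => ∑ k : Fin (i+1), v (k, l) * x ^ (k : ℕ)) = 0 := by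
    intro x
    apply coeff_zero_of_forall
    intro y
    have := h1 x y
    rw [Fintype.sum_prod_type, Finset.sum_comm] at this
    rw [← this]
    refine Finset.sum_congr rfl fun l _ => ?_
    rw [Finset.sum_mul]
    exact Finset.sum_congr rfl fun k _ => by ring
  have h3 : ∀ l, (fun k => v (k, l)) = 0 := by
    intro l
    apply coeff_zero_of_forall
    intro x
    exact congrFun (h2 x) l
  funext p
  exact congrFun (h3 p.2) p.1

lemma isHom_m1 (t : ℂ) : MvPolynomial.IsWeightedHomogeneous bideg (m1 t) (1, 0) := by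
  refine MvPolynomial.IsWeightedHomogeneous.add (MvPolynomial.isWeightedHomogeneous_X ℂ bideg 0) ?_
  have := (MvPolynomial.isWeightedHomogeneous_C bideg t).mul
    (MvPolynomial.isWeightedHomogeneous_X ℂ bideg 1)
  rw [zero_add] at this
  exact this

lemma isHom_m2 (s : ℂ) : MvPolynomial.IsWeightedHomogeneous bideg (m2 s) (0, 1) := by
  refine MvPolynomial.IsWeightedHomogeneous.add (MvPolynomial.isWeightedHomogeneous_X ℂ bideg 2) ?_
  have := (MvPolynomial.isWeightedHomogeneous_C bideg s).mul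
    (MvPolynomial.isWeightedHomogeneous_X ℂ bideg 3)
  rw [zero_add] at this
  exact this

lemma Th_mem (t s : ℂ) (i j : ℕ) (v : VV i j) : Th t s i j v ∈ forms i j := by
  rw [Th_apply]
  refine Submodule.sum_mem _ fun p _ => ?_
  rw [forms, MvPolynomial.mem_weightedHomogeneousSubmodule]
  have h1 := (((MvPolynomial.isWeightedHomogeneous_X ℂ bideg 1).pow (p.1 : ℕ)).mul
    ((isHom_m1 t).pow (i - (p.1 : ℕ)))).mul
    (((MvPolynomial.isWeightedHomogeneous_X ℂ bideg 3).pow (p.2 : ℕ)).mul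
    ((isHom_m2 s).pow (j - (p.2 : ℕ))))
  have h2 := (MvPolynomial.isWeightedHomogeneous_C bideg (v p)).mul h1
  convert h2 using 1
  have e1 : bideg 1 = (1, 0) := rfl
  have e3 : bideg 3 = (0, 1) := rfl
  rw [e1, e3]
  have hp1 : (p.1 : ℕ) ≤ i := by omega
  have hp2 : (p.2 : ℕ) ≤ j := by omega
  ext
  · simp; omega
  · simp; omega

/-- the exponent vector of `x₀^{i-k} x₁^k x₂^{j-l} x₃^l` -/
def expo (i j k l : ℕ) : Fin 4 →₀ ℕ := Finsupp.equivFunOnFinite.symm ![i - k, k, j - l, l]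

lemma weight_eq (d : Fin 4 →₀ ℕ) : Finsupp.weight bideg d = (d 0 + d 1, d 2 + d 3) := by
  rw [Finsupp.weight_apply, Finsupp.sum_fintype _ _ (fun i => by simp)]
  rw [Fin.sum_univ_four]
  simp [bideg]

/-- coefficient extraction on forms -/
def coeffs (i j : ℕ) : forms i j →ₗ[ℂ] VV i j where
  toFun F p := MvPolynomial.coeff (expo i j p.1 p.2) F.1
  map_add' x y := by funext p; simp
  map_smul' c x := by funext p; simp

lemma coeffs_injective (i j : ℕ) : Function.Injective (coeffs i j) := by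
  rw [injective_iff_map_eq_zero]
  rintro ⟨F, hF⟩ h0
  apply Subtype.ext
  show F = 0
  ext d
  rw [MvPolynomial.coeff_zero]
  by_contra hne
  rw [forms, MvPolynomial.mem_weightedHomogeneousSubmodule] at hF
  have h1 := hF hne
  rw [weight_eq] at h1
  have h2 : d 0 + d 1 = i := congrArg Prod.fst h1
  have h3 : d 2 + d 3 = j := congrArg Prod.snd h1
  have h4 := congrFun h0 (⟨d 1, by omega⟩, ⟨d 3, by omega⟩)
  have h5 : expo i j (d 1) (d 3) = d := by
    ext x
    simp only [expo, Finsupp.coe_equivFunOnFinite_symm]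
    fin_cases x
    · show i - d 1 = d 0; omega
    · rfl
    · show j - d 3 = d 2; omega
    · rfl
  apply hne
  rw [← h5]
  exact h4

instance (i j : ℕ) : FiniteDimensional ℂ (forms i j) :=
  FiniteDimensional.of_injective (coeffs i j) (coeffs_injective i j)

lemma finrank_VV (i j : ℕ) : finrank ℂ (VV i j) = (i + 1) * (j + 1) := by
  rw [Module.finrank_fintype_fun_eq_card, Fintype.card_prod, Fintype.card_fin, Fintype.card_fin]

lemma range_Th (t s : ℂ) (i j : ℕ) : LinearMap.range (Th t s i j) = forms i j := by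
  refine Submodule.eq_of_le_of_finrank_le ?_ ?_
  · rintro _ ⟨v, rfl⟩
    exact Th_mem t s i j v
  · have h1 := LinearMap.finrank_le_finrank_of_injective (coeffs_injective i j)
    rw [LinearMap.finrank_range_of_inj (Th_injective t s i j)]
    exact h1

lemma finrank_forms (i j : ℕ) : finrank ℂ (forms i j) = (i + 1) * (j + 1) := by
  rw [← range_Th 0 0, LinearMap.finrank_range_of_inj (Th_injective 0 0 i j), finrank_VV]

end
end FP97
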