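import Pool.Agent.helper97.FP.Geo

namespace FP97
noncomputable section
open Finset Module
open Pool.Agent.helper97.FP

/-- vanishing of `∑ v_p x^{p₁} y^{p₂}` to second order at `z` -/
def Dbl {i j : ℕ} (v : VV i j) (z : ℂ × ℂ) : Prop :=
  (∑ p, v p * (z.1 ^ (p.1 : ℕ) * z.2 ^ (p.2 : ℕ)) = 0) ∧
  (∑ p, v p * (((p.1 : ℕ) * z.1 ^ ((p.1 : ℕ) - 1)) * z.2 ^ (p.2 : ℕ)) = 0) ∧
  (∑ p, v p * (z.1 ^ (p.1 : ℕ) * ((p.2 : ℕ) * z.2 ^ ((p.2 : ℕ) - 1))) = 0)

/-- abstract form of Taylor expansion to first order -/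
lemma taylor {A : Type*} [CommRing A] (n1 l1 x1 α : A) (hx : x1 = α * n1 + l1) (hl : l1 * l1 = 0)
    (i k : ℕ) (hk : k ≤ i) :
    x1 ^ k * n1 ^ (i - k) = α ^ k * n1 ^ i + ((k : A) * α ^ (k - 1)) * (n1 ^ (i - 1) * l1) := by
  obtain ⟨r, hr⟩ := Polynomial.powAddExpansion (α * n1) l1 k
  rw [hx, hr, pow_two, hl, mul_zero, add_zero]
  rcases k with _ | k
  · simp
  · rw [Nat.add_sub_cancel, add_mul]
    have e1 : (α * n1) ^ (k + 1) * n1 ^ (i - (k + 1)) = α ^ (k + 1) * n1 ^ i := by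
      rw [mul_pow, mul_assoc, ← pow_add]
      congr 2
      omega
    have e2 : ((k + 1 : ℕ) : A) * (α * n1) ^ k * l1 * n1 ^ (i - (k + 1)) =
        ((k + 1 : ℕ) : A) * α ^ k * (n1 ^ (i - 1) * l1) := by
      have : n1 ^ (i - 1) = n1 ^ k * n1 ^ (i - (k + 1)) := by rw [← pow_add]; congr 1; omega
      rw [this, mul_pow]; ring
    rw [e1, e2]

lemma Th_quot {A : Type*} [CommRing A] [Algebra ℂ A] (π : R4 →ₐ[ℂ] A) (t s α β : ℂ) (i j : ℕ)
    (v : VV i j) (l1 l2 : A)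
    (h1 : π (MvPolynomial.X 1) = algebraMap ℂ A α * π (m1 t) + l1)
    (h2 : π (MvPolynomial.X 3) = algebraMap ℂ A β * π (m2 s) + l2)
    (h11 : l1 * l1 = 0) (h22 : l2 * l2 = 0) (h12 : l1 * l2 = 0) (hv : Dbl v (α, β)) :
    π (Th t s i j v) = 0 := by
  rw [Th_apply, map_sum]
  have key : ∀ p : Fin (i+1) × Fin (j+1), π (MvPolynomial.C (v p) *
      ((MvPolynomial.X 1 ^ (p.1 : ℕ) * m1 t ^ (i - (p.1 : ℕ))) *
      (MvPolynomial.X 3 ^ (p.2 : ℕ) * m2 s ^ (j - (p.2 : ℕ))))) =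
      algebraMap ℂ A (v p * (α ^ (p.1 : ℕ) * β ^ (p.2 : ℕ))) * (π (m1 t) ^ i * π (m2 s) ^ j) +
      algebraMap ℂ A (v p * (((p.1 : ℕ) * α ^ ((p.1 : ℕ) - 1)) * β ^ (p.2 : ℕ))) *
        (π (m1 t) ^ (i - 1) * l1 * π (m2 s) ^ j) +
      algebraMap ℂ A (v p * (α ^ (p.1 : ℕ) * ((p.2 : ℕ) * β ^ ((p.2 : ℕ) - 1)))) *
        (π (m1 t) ^ i * (π (m2 s) ^ (j - 1) * l2)) := by
    intro p
    have hp1 : (p.1 : ℕ) ≤ i := by omega
    have hp2 : (p.2 : ℕ) ≤ j := by omega
    have t1 := taylor (π (m1 t)) l1 _ _ h1 h11 i p.1 hp1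
    have t2 := taylor (π (m2 s)) l2 _ _ h2 h22 j p.2 hp2
    rw [map_mul, map_mul, map_mul, map_mul, map_pow, map_pow, map_pow, map_pow, t1, t2]
    have hc : π (MvPolynomial.C (v p)) = algebraMap ℂ A (v p) := π.commutes (v p)
    rw [hc]
    simp only [map_mul, map_pow, map_natCast]
    linear_combination (algebraMap ℂ A (v p) * ((p.1 : ℕ) : A) * algebraMap ℂ A α ^ ((p.1 : ℕ) - 1) *
      π (m1 t) ^ (i - 1) * (((p.2 : ℕ) : A) * algebraMap ℂ A β ^ ((p.2 : ℕ) - 1)) *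
      π (m2 s) ^ (j - 1)) * h12
  rw [Finset.sum_congr rfl fun p _ => key p]
  rw [Finset.sum_add_distrib, Finset.sum_add_distrib, ← Finset.sum_mul, ← Finset.sum_mul,
    ← Finset.sum_mul, ← map_sum, ← map_sum, ← map_sum, hv.1, hv.2.1, hv.2.2]
  simp

section point
variable (t s : ℂ) (P : Point)

/-- affine coordinates -/
def aff : ℂ × ℂ := (P.1.rep 1 / (P.1.rep 0 + t * P.1.rep 1), P.2.rep 1 / (P.2.rep 0 + s * P.2.rep 1))

/-- good position -/
def Good : Prop := P.1.rep 0 + t * P.1.rep 1 ≠ 0 ∧ P.2.rep 0 + s * P.2.rep 1 ≠ 0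

lemma gen1_mem : MvPolynomial.C (P.1.rep 1) * MvPolynomial.X 0 -
    MvPolynomial.C (P.1.rep 0) * MvPolynomial.X 1 ∈ idealPoint P :=
  Ideal.subset_span (Set.mem_insert _ _)
lemma gen2_mem : MvPolynomial.C (P.2.rep 1) * MvPolynomial.X 2 -
    MvPolynomial.C (P.2.rep 0) * MvPolynomial.X 3 ∈ idealPoint P :=
  Ideal.subset_span (Set.mem_insert_of_mem _ rfl)

variable {t s P}

lemma L1_mem (hg : Good t s P) :
    MvPolynomial.X 1 - MvPolynomial.C (aff t s P).1 * m1 t ∈ idealPoint P := by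
  have h1 := (idealPoint P).mul_mem_left
    (MvPolynomial.C (-(P.1.rep 0 + t * P.1.rep 1)⁻¹)) (gen1_mem P)
  convert h1 using 1
  have e : MvPolynomial.C (aff t s P).1 = (MvPolynomial.C (P.1.rep 1) *
      MvPolynomial.C ((P.1.rep 0 + t * P.1.rep 1)⁻¹) : R4) := by
    rw [← MvPolynomial.C_mul]; rfl
  have e2 : (MvPolynomial.C (P.1.rep 0) + MvPolynomial.C t * MvPolynomial.C (P.1.rep 1)) *
      MvPolynomial.C ((P.1.rep 0 + t * P.1.rep 1)⁻¹) = (1 : R4) := by
    rw [← MvPolynomial.C_mul, ← MvPolynomial.C_add, ← MvPolynomial.C_mul, mul_inv_cancel₀ hg.1,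
      MvPolynomial.C_1]
  rw [e, m1, MvPolynomial.C_neg]
  linear_combination (-(MvPolynomial.X 1 : R4)) * e2

lemma L2_mem (hg : Good t s P) :
    MvPolynomial.X 3 - MvPolynomial.C (aff t s P).2 * m2 s ∈ idealPoint P := by
  have h1 := (idealPoint P).mul_mem_left
    (MvPolynomial.C (-(P.2.rep 0 + s * P.2.rep 1)⁻¹)) (gen2_mem P)
  convert h1 using 1
  have e : MvPolynomial.C (aff t s P).2 = (MvPolynomial.C (P.2.rep 1) *
      MvPolynomial.C ((P.2.rep 0 + s * P.2.rep 1)⁻¹) : R4) := by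
    rw [← MvPolynomial.C_mul]; rfl
  have e2 : (MvPolynomial.C (P.2.rep 0) + MvPolynomial.C s * MvPolynomial.C (P.2.rep 1)) *
      MvPolynomial.C ((P.2.rep 0 + s * P.2.rep 1)⁻¹) = (1 : R4) := by
    rw [← MvPolynomial.C_mul, ← MvPolynomial.C_add, ← MvPolynomial.C_mul, mul_inv_cancel₀ hg.2,
      MvPolynomial.C_1]
  rw [e, m2, MvPolynomial.C_neg]
  linear_combination (-(MvPolynomial.X 3 : R4)) * e2

lemma mem_of_Dbl (hg : Good t s P) {i j : ℕ} {v : VV i j} (hv : Dbl v (aff t s P)) :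
    Th t s i j v ∈ idealPoint P ^ 2 := by
  let π : R4 →ₐ[ℂ] (R4 ⧸ idealPoint P ^ 2) := Ideal.Quotient.mkₐ ℂ (idealPoint P ^ 2)
  have hπ : ∀ F, π F = 0 ↔ F ∈ idealPoint P ^ 2 := fun F => Ideal.Quotient.eq_zero_iff_mem
  have hz : ∀ F G, F ∈ idealPoint P → G ∈ idealPoint P → π F * π G = 0 := by
    intro F G hF hG
    rw [← map_mul, hπ, pow_two]
    exact Ideal.mul_mem_mul hF hG
  rw [← hπ]
  refine Th_quot π t s (aff t s P).1 (aff t s P).2 i j v
    (π (MvPolynomial.X 1 - MvPolynomial.C (aff t s P).1 * m1 t))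
    (π (MvPolynomial.X 3 - MvPolynomial.C (aff t s P).2 * m2 s)) ?_ ?_
    (hz _ _ (L1_mem hg) (L1_mem hg)) (hz _ _ (L2_mem hg) (L2_mem hg))
    (hz _ _ (L1_mem hg) (L2_mem hg)) hv
  · rw [map_sub, map_mul]
    have : π (MvPolynomial.C (aff t s P).1) = algebraMap ℂ _ (aff t s P).1 := π.commutes _
    rw [this]; ring
  · rw [map_sub, map_mul]
    have : π (MvPolynomial.C (aff t s P).2) = algebraMap ℂ _ (aff t s P).2 := π.commutes _
    rw [this]; ring

open Polynomial in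
lemma Dbl_of_mem (hg : Good t s P) {i j : ℕ} {v : VV i j}
    (hv : Th t s i j v ∈ idealPoint P ^ 2) : Dbl v (aff t s P) := by
  set α := (aff t s P).1 with hα
  set β := (aff t s P).2 with hβ
  have hα1 : P.1.rep 1 = (P.1.rep 0 + t * P.1.rep 1) * α := by
    rw [hα]; show _ = _ * (P.1.rep 1 / (P.1.rep 0 + t * P.1.rep 1))
    rw [mul_div_cancel₀ _ hg.1]
  have hβ1 : P.2.rep 1 = (P.2.rep 0 + s * P.2.rep 1) * β := by
    rw [hβ]; show _ = _ * (P.2.rep 1 / (P.2.rep 0 + s * P.2.rep 1))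
    rw [mul_div_cancel₀ _ hg.2]
  -- the line `y = β`
  have hx : (X - C α) ^ 2 ∣ ev t s (X : ℂ[X]) (C β) (Th t s i j v) := by
    have h1 : (idealPoint P).map (ev t s (X : ℂ[X]) (C β)).toRingHom ≤ Ideal.span {X - C α} := by
      rw [idealPoint, Ideal.map_span, Ideal.span_le]
      rintro _ ⟨F, hF, rfl⟩
      rcases hF with rfl | rfl
      · rw [SetLike.mem_coe, Ideal.mem_span_singleton]
        refine ⟨-C (P.1.rep 0 + t * P.1.rep 1), ?_⟩
        show ev t s (X : ℂ[X]) (C β) _ = _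
        rw [map_sub, map_mul, map_mul, ev_X0, ev_X1, ev_C, ev_C]
        simp only [Polynomial.algebraMap_eq]
        have := congrArg (C : ℂ → ℂ[X]) hα1
        simp only [C_mul, C_add] at this ⊢
        linear_combination this
      · rw [SetLike.mem_coe, Ideal.mem_span_singleton]
        refine ⟨0, ?_⟩
        show ev t s (X : ℂ[X]) (C β) _ = _
        rw [map_sub, map_mul, map_mul, ev_X2, ev_X3, ev_C, ev_C]
        simp only [Polynomial.algebraMap_eq]
        have := congrArg (C : ℂ → ℂ[X]) hβ1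
        simp only [C_mul, C_add] at this ⊢
        linear_combination this
    have h2 : ev t s (X : ℂ[X]) (C β) (Th t s i j v) ∈ Ideal.span {X - C α} ^ 2 := by
      have h3 := Ideal.mem_map_of_mem (ev t s (X : ℂ[X]) (C β)).toRingHom hv
      rw [Ideal.map_pow] at h3
      exact Ideal.pow_right_mono h1 2 h3
    rw [Ideal.span_singleton_pow, Ideal.mem_span_singleton] at h2
    exact h2
  have hy : (X - C β) ^ 2 ∣ ev t s (C α) (X : ℂ[X]) (Th t s i j v) := by
    have h1 : (idealPoint P).map (ev t s (C α) (X : ℂ[X])).toRingHom ≤ Ideal.span {X - C β} := by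
      rw [idealPoint, Ideal.map_span, Ideal.span_le]
      rintro _ ⟨F, hF, rfl⟩
      rcases hF with rfl | rfl
      · rw [SetLike.mem_coe, Ideal.mem_span_singleton]
        refine ⟨0, ?_⟩
        show ev t s (C α) (X : ℂ[X]) _ = _
        rw [map_sub, map_mul, map_mul, ev_X0, ev_X1, ev_C, ev_C]
        simp only [Polynomial.algebraMap_eq]
        have := congrArg (C : ℂ → ℂ[X]) hα1
        simp only [C_mul, C_add] at this ⊢
        linear_combination this
      · rw [SetLike.mem_coe, Ideal.mem_span_singleton]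
        refine ⟨-C (P.2.rep 0 + s * P.2.rep 1), ?_⟩
        show ev t s (C α) (X : ℂ[X]) _ = _
        rw [map_sub, map_mul, map_mul, ev_X2, ev_X3, ev_C, ev_C]
        simp only [Polynomial.algebraMap_eq]
        have := congrArg (C : ℂ → ℂ[X]) hβ1
        simp only [C_mul, C_add] at this ⊢
        linear_combination this
    have h2 : ev t s (C α) (X : ℂ[X]) (Th t s i j v) ∈ Ideal.span {X - C β} ^ 2 := by
      have h3 := Ideal.mem_map_of_mem (ev t s (C α) (X : ℂ[X])).toRingHom hv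
      rw [Ideal.map_pow] at h3
      exact Ideal.pow_right_mono h1 2 h3
    rw [Ideal.span_singleton_pow, Ideal.mem_span_singleton] at h2
    exact h2
  rw [sq_dvd_iff, ev_Th] at hx hy
  obtain ⟨x1, x2⟩ := hx
  obtain ⟨_, y2⟩ := hy
  simp only [Polynomial.algebraMap_eq, eval_finsetSum, derivative_sum, derivative_mul,
    derivative_X_pow, ← C_pow, derivative_C, eval_mul, eval_C, eval_pow, eval_X, mul_zero,
    zero_mul, add_zero, zero_add] at x1 x2 y2
  exact ⟨x1, x2, y2⟩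

lemma mem_iff_Dbl (hg : Good t s P) {i j : ℕ} {v : VV i j} :
    Th t s i j v ∈ idealPoint P ^ 2 ↔ Dbl v (aff t s P) :=
  ⟨Dbl_of_mem hg, mem_of_Dbl hg⟩

end point

/-- the subspace of doubly vanishing coefficient vectors -/
def DV (Z : Set (ℂ × ℂ)) (i j : ℕ) : Submodule ℂ (VV i j) where
  carrier := {v | ∀ z ∈ Z, Dbl v z}
  add_mem' := by
    intro v w hv hw z hz
    obtain ⟨h1, h2, h3⟩ := hv z hz
    obtain ⟨h4, h5, h6⟩ := hw z hz
    simp only [Dbl, Pi.add_apply, add_mul, Finset.sum_add_distrib, h1, h2, h3, h4, h5, h6, add_zero,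
      and_self]
  zero_mem' := by intro z _; simp [Dbl]
  smul_mem' := by
    intro c v hv z hz
    obtain ⟨h1, h2, h3⟩ := hv z hz
    simp only [Dbl, Pi.smul_apply, smul_eq_mul, mul_assoc c, ← Finset.mul_sum, h1, h2, h3, mul_zero,
      and_self]

theorem hilbert_eq_DV {t s : ℂ} {Y : Finset Point} (hY : ∀ P ∈ Y, Good t s P) (i j : ℕ) :
    hilbert (doubleIdeal Y) i j =
      (i + 1) * (j + 1) - finrank ℂ (DV {z | ∃ P ∈ Y, aff t s P = z} i j) := by
  rw [hilbert, finrank_forms]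
  congr 1
  have h1 : (DV {z | ∃ P ∈ Y, aff t s P = z} i j).map (Th t s i j) =
      forms i j ⊓ (doubleIdeal Y).restrictScalars ℂ := by
    ext F
    rw [Submodule.mem_map, Submodule.mem_inf, Submodule.restrictScalars_mem]
    constructor
    · rintro ⟨v, hv, rfl⟩
      refine ⟨Th_mem _ _ _ _ _, ?_⟩
      rw [doubleIdeal, Ideal.mem_iInf]
      intro P
      rw [Ideal.mem_iInf]
      intro hP
      exact mem_of_Dbl (hY P hP) (hv _ ⟨P, hP, rfl⟩)
    · rintro ⟨hF1, hF2⟩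
      rw [← range_Th t s i j] at hF1
      obtain ⟨v, rfl⟩ := hF1
      refine ⟨v, ?_, rfl⟩
      rintro z ⟨P, hP, rfl⟩
      rw [doubleIdeal, Ideal.mem_iInf] at hF2
      have := hF2 P
      rw [Ideal.mem_iInf] at this
      exact Dbl_of_mem (hY P hP) (this hP)
  rw [← h1]
  exact ((Submodule.equivMapOfInjective _ (Th_injective t s i j) _).finrank_eq).symm

lemma DV_eq_WW {h : ℕ} {a : Fin h → ℂ} {B : Fin h → Finset ℂ} {Z : Set (ℂ × ℂ)}
    (hZ : ∀ z, z ∈ Z ↔ ∃ k, z.1 = a k ∧ z.2 ∈ B k) (i j : ℕ) : DV Z i j = WW a B i j := by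
  ext v
  constructor
  · intro hv k b hb
    exact hv (a k, b) ((hZ _).mpr ⟨k, rfl, hb⟩)
  · rintro hv ⟨x, y⟩ hz
    obtain ⟨k, hk1, hk2⟩ := (hZ _).mp hz
    simp only at hk1 hk2
    subst hk1
    exact hv k y hk2

/-- exchanging the factors -/
lemma finrank_DV_swap (Z : Set (ℂ × ℂ)) (i j : ℕ) :
    finrank ℂ (DV (Prod.swap ⁻¹' Z) j i) = finrank ℂ (DV Z i j) := by
  let f : VV i j →ₗ[ℂ] VV j i := LinearMap.funLeft ℂ ℂ Prod.swap
  have hf : Function.Injective f := by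
    intro x y hxy
    funext p
    exact congrFun hxy p.swap
  have key : (DV Z i j).map f = DV (Prod.swap ⁻¹' Z) j i := by
    have hd : ∀ (v : VV i j) (z : ℂ × ℂ), Dbl (f v) z.swap ↔ Dbl v z := by
      intro v z
      have e : ∀ g : Fin (j+1) × Fin (i+1) → ℂ, ∑ p, g p = ∑ p : Fin (i+1) × Fin (j+1), g p.swap :=
        fun g => ((Equiv.prodComm _ _).sum_comp g).symm
      unfold Dbl
      rw [e, e, e]
      have e1 : ∀ p, f v (Prod.swap p) = v p := fun p => rfl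
      simp only [e1, Prod.fst_swap, Prod.snd_swap]
      constructor
      · rintro ⟨h1, h2, h3⟩
        refine ⟨?_, ?_, ?_⟩
        · rw [← h1]; exact Finset.sum_congr rfl fun p _ => by ring
        · rw [← h3]; exact Finset.sum_congr rfl fun p _ => by ring
        · rw [← h2]; exact Finset.sum_congr rfl fun p _ => by ring
      · rintro ⟨h1, h2, h3⟩
        refine ⟨?_, ?_, ?_⟩
        · rw [← h1]; exact Finset.sum_congr rfl fun p _ => by ring
        · rw [← h3]; exact Finset.sum_congr rfl fun p _ => by ring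
        · rw [← h2]; exact Finset.sum_congr rfl fun p _ => by ring
    ext w
    rw [Submodule.mem_map]
    constructor
    · rintro ⟨v, hv, rfl⟩ z hz
      have := (hd v z.swap).mpr (hv z.swap hz)
      rwa [Prod.swap_swap] at this
    · intro hw
      refine ⟨fun p => w p.swap, ?_, ?_⟩
      · intro z hz
        have h1 := hw z.swap (by simpa using hz)
        rw [← hd]
        exact h1
      · funext p; rfl
  rw [← key]
  exact ((Submodule.equivMapOfInjective _ hf _).finrank_eq).symm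

end
end FP97
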