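import Pool.Agent.helper97.FP.Loc

namespace FP97
noncomputable section
open Polynomial Finset Module

variable {h : ℕ} (a : Fin h → ℂ)

def Dk (k : Fin h) : ℂ[X] := ∏ m ∈ univ.erase k, (X - C (a m))

def DD : ℂ[X] := (∏ m, (X - C (a m))) ^ 2

lemma Dk_mul (k : Fin h) : (X - C (a k)) ^ 2 * (Dk a k) ^ 2 = DD a := by
  rw [← mul_pow, Dk, DD, Finset.mul_prod_erase univ (fun m => X - C (a m)) (mem_univ k)]

lemma Dk_monic (k : Fin h) : (Dk a k).Monic := monic_prod_of_monic _ _ fun _ _ => monic_X_sub_C _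

lemma natDegree_Dk (k : Fin h) : (Dk a k).natDegree = h - 1 := by
  rw [Dk, natDegree_prod_of_monic _ _ fun _ _ => monic_X_sub_C _]
  simp

lemma DD_monic : (DD a).Monic := (monic_prod_of_monic _ _ fun _ _ => monic_X_sub_C _).pow 2

lemma natDegree_DD : (DD a).natDegree = 2 * h := by
  rw [DD, (monic_prod_of_monic _ _ fun _ _ => monic_X_sub_C _).natDegree_pow,
    natDegree_prod_of_monic _ _ fun _ _ => monic_X_sub_C _]
  simp

variable {a}

lemma DD_dvd_iff (ha : Function.Injective a) (P : ℂ[X]) :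
    DD a ∣ P ↔ ∀ k, P.eval (a k) = 0 ∧ (derivative P).eval (a k) = 0 := by
  have := prod_pow_dvd univ a (ha.injOn) (fun _ => 2) P
  rw [DD, ← Finset.prod_pow, this]
  simp only [sq_dvd_iff, mem_univ, true_implies]

lemma eq_zero_of_DD_dvd {P : ℂ[X]} (hP : P ∈ degreeLT ℂ (2 * h)) (hd : DD a ∣ P) : P = 0 := by
  by_contra h0
  rw [mem_degreeLT] at hP
  have := degree_le_of_dvd hd h0
  rw [degree_eq_natDegree (DD_monic a).ne_zero, natDegree_DD] at this
  exact absurd (lt_of_le_of_lt this hP) (lt_irrefl _)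

lemma Dk_eval_ne (ha : Function.Injective a) (k : Fin h) : (Dk a k).eval (a k) ≠ 0 := by
  rw [Dk, eval_prod]
  refine Finset.prod_ne_zero_iff.mpr fun m hm => ?_
  simp only [eval_sub, eval_X, eval_C]
  exact sub_ne_zero.mpr fun h => (Finset.ne_of_mem_erase hm) (ha h).symm

variable (a)

/-- the polynomial attached to a Hermite functional -/
def gam1 : ((Fin h → ℂ) × (Fin h → ℂ)) →ₗ[ℂ] ℂ[X] where
  toFun c := ∑ k, (C (c.1 k) * (X - C (a k)) + C (c.2 k)) * (Dk a k) ^ 2
  map_add' x y := by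
    rw [← Finset.sum_add_distrib]
    refine Finset.sum_congr rfl fun k _ => ?_
    simp only [Prod.fst_add, Prod.snd_add, Pi.add_apply, C_add]
    ring
  map_smul' c x := by
    rw [RingHom.id_apply, Finset.smul_sum]
    refine Finset.sum_congr rfl fun k _ => ?_
    simp only [Prod.smul_fst, Prod.smul_snd, Pi.smul_apply, smul_eq_mul, C_mul, smul_eq_C_mul]
    ring

lemma gam1_apply (c : (Fin h → ℂ) × (Fin h → ℂ)) :
    gam1 a c = ∑ k, (C (c.1 k) * (X - C (a k)) + C (c.2 k)) * (Dk a k) ^ 2 := rfl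

lemma term_degree (k : Fin h) (x y : ℂ) :
    (C x * (X - C (a k)) + C y) * (Dk a k) ^ 2 ∈ degreeLT ℂ (2 * h) := by
  rw [mem_degreeLT]
  have hh : 0 < h := k.pos
  refine lt_of_le_of_lt (degree_mul_le _ _) ?_
  have h1 : (C x * (X - C (a k)) + C y : ℂ[X]).degree ≤ 1 := by
    refine (degree_add_le _ _).trans (max_le ?_ ?_)
    · refine (degree_mul_le _ _).trans ?_
      rw [degree_X_sub_C]
      calc (C x).degree + 1 ≤ 0 + 1 := add_le_add_left degree_C_le 1
        _ = 1 := zero_add 1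
    · exact degree_C_le.trans zero_le_one
  have h2 : ((Dk a k) ^ 2).degree = ((2 * (h - 1) : ℕ) : WithBot ℕ) := by
    rw [degree_eq_natDegree ((Dk_monic a k).pow 2).ne_zero, (Dk_monic a k).natDegree_pow,
      natDegree_Dk]
  rw [h2]
  refine lt_of_le_of_lt (add_le_add_left h1 _) ?_
  have : ((1 : WithBot ℕ) + ((2 * (h - 1) : ℕ) : WithBot ℕ)) = ((1 + 2 * (h - 1) : ℕ) : WithBot ℕ) := by
    push_cast; rfl
  rw [this]
  exact_mod_cast (by omega : 1 + 2 * (h - 1) < 2 * h)

lemma gam1_mem (c : (Fin h → ℂ) × (Fin h → ℂ)) : gam1 a c ∈ degreeLT ℂ (2 * h) := by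
  rw [gam1_apply]
  exact Submodule.sum_mem _ fun k _ => term_degree a k _ _

lemma gam1_coeff (c : (Fin h → ℂ) × (Fin h → ℂ)) :
    (gam1 a c).coeff (2 * h - 1) = ∑ k, c.1 k := by
  rw [gam1_apply, finsetSum_coeff]
  refine Finset.sum_congr rfl fun k _ => ?_
  have hh : 0 < h := k.pos
  have e : (C (c.1 k) * (X - C (a k)) + C (c.2 k)) * (Dk a k) ^ 2
      = C (c.1 k) * ((X - C (a k)) * (Dk a k) ^ 2) + C (c.2 k) * (Dk a k) ^ 2 := by ring
  rw [e, coeff_add, coeff_C_mul, coeff_C_mul]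
  have hm : ((X - C (a k)) * (Dk a k) ^ 2).Monic := (monic_X_sub_C _).mul ((Dk_monic a k).pow 2)
  have hd : ((X - C (a k)) * (Dk a k) ^ 2).natDegree = 2 * h - 1 := by
    rw [(monic_X_sub_C _).natDegree_mul ((Dk_monic a k).pow 2), (Dk_monic a k).natDegree_pow,
      natDegree_Dk, natDegree_X_sub_C]
    omega
  have h1 : ((X - C (a k)) * (Dk a k) ^ 2).coeff (2 * h - 1) = 1 := by
    rw [← hd]; exact hm.coeff_natDegree
  have h2 : ((Dk a k) ^ 2).coeff (2 * h - 1) = 0 := by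
    apply coeff_eq_zero_of_natDegree_lt
    rw [(Dk_monic a k).natDegree_pow, natDegree_Dk]
    omega
  rw [h1, h2]; ring

/-- multiplication by `X^m` on Hermite functionals -/
def tw (m : ℕ) (c : (Fin h → ℂ) × (Fin h → ℂ)) : (Fin h → ℂ) × (Fin h → ℂ) :=
  (fun k => c.1 k * a k ^ m + c.2 k * (m * a k ^ (m - 1)), fun k => c.2 k * a k ^ m)

lemma taylor_dvd (α : ℂ) (m : ℕ) :
    (X - C α) ^ 2 ∣ (X ^ m - C (α ^ m) - C (m * α ^ (m - 1)) * (X - C α) : ℂ[X]) := by
  rw [sq_dvd_iff]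
  constructor
  · simp
  · simp [derivative_X_pow, -map_pow, -map_mul]

lemma dvd_tw (m : ℕ) (c : (Fin h → ℂ) × (Fin h → ℂ)) :
    DD a ∣ X ^ m * gam1 a c - gam1 a (tw a m c) := by
  rw [gam1_apply, gam1_apply, Finset.mul_sum, ← Finset.sum_sub_distrib]
  refine Finset.dvd_sum fun k _ => ?_
  obtain ⟨R, hR⟩ := taylor_dvd (a k) m
  have hX : (X ^ m : ℂ[X]) = (X - C (a k)) ^ 2 * R + C (a k ^ m) +
      C (m * a k ^ (m - 1)) * (X - C (a k)) := by rw [← hR]; ring
  rw [← Dk_mul a k]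
  refine ⟨(C (c.1 k) * (X - C (a k)) + C (c.2 k)) * R + C (c.1 k) * C (m * a k ^ (m - 1)), ?_⟩
  rw [hX]
  simp only [tw, C_add, C_mul]
  ring

/-- the `m`-th moment -/
def mom (m : ℕ) (c : (Fin h → ℂ) × (Fin h → ℂ)) : ℂ :=
  ∑ k, (c.1 k * a k ^ m + c.2 k * (m * a k ^ (m - 1)))

lemma tw_coeff (m : ℕ) (c : (Fin h → ℂ) × (Fin h → ℂ)) :
    (gam1 a (tw a m c)).coeff (2 * h - 1) = mom a m c := gam1_coeff a _

lemma mem_degreeLT_pred {N : ℕ} {P : ℂ[X]} (h1 : P ∈ degreeLT ℂ (N + 1)) (h2 : P.coeff N = 0) :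
    P ∈ degreeLT ℂ N := by
  rw [mem_degreeLT] at h1 ⊢
  rw [degree_lt_iff_coeff_zero] at h1 ⊢
  intro m hm
  rcases eq_or_lt_of_le hm with rfl | hlt
  · exact h2
  · exact h1 m hlt

lemma X_pow_mul_mem {N m : ℕ} {P : ℂ[X]} (h1 : P ∈ degreeLT ℂ N) : X ^ m * P ∈ degreeLT ℂ (N + m) := by
  rw [mem_degreeLT_mul (pow_ne_zero m X_ne_zero), natDegree_X_pow]
  simpa using h1

lemma eq_tw {m : ℕ} {c : (Fin h → ℂ) × (Fin h → ℂ)} (h1 : X ^ m * gam1 a c ∈ degreeLT ℂ (2 * h)) :
    X ^ m * gam1 a c = gam1 a (tw a m c) := by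
  have := eq_zero_of_DD_dvd (sub_mem h1 (gam1_mem a _)) (dvd_tw a m c)
  exact sub_eq_zero.mp this

theorem mom_iff (i : ℕ) (c : (Fin h → ℂ) × (Fin h → ℂ)) :
    (∀ m ≤ i, mom a m c = 0) ↔ gam1 a c ∈ degreeLT ℂ (2 * h - 1 - i) := by
  constructor
  · intro hm
    have key : ∀ t ≤ i + 1, gam1 a c ∈ degreeLT ℂ (2 * h - t) := by
      intro t
      induction t with
      | zero => intro _; exact gam1_mem a c
      | succ t ih =>
        intro ht
        have ih' := ih (by omega)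
        by_cases hth : 2 * h ≤ t
        · have e : 2 * h - (t + 1) = 2 * h - t := by omega
          rw [e]; exact ih'
        · have e : 2 * h - t = (2 * h - (t + 1)) + 1 := by omega
          have h1 : X ^ t * gam1 a c ∈ degreeLT ℂ (2 * h) := by
            have := X_pow_mul_mem (m := t) ih'
            have e2 : 2 * h - t + t = 2 * h := by omega
            rwa [e2] at this
          have h2 := eq_tw a h1
          have h3 : (X ^ t * gam1 a c).coeff (2 * h - 1) = 0 := by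
            rw [h2, tw_coeff]; exact hm t (by omega)
          rw [e] at ih'
          refine mem_degreeLT_pred ih' ?_
          have e3 : 2 * h - 1 = (2 * h - (t + 1)) + t := by omega
          rw [e3, coeff_X_pow_mul] at h3
          exact h3
    have := key (i + 1) le_rfl
    have e : 2 * h - 1 - i = 2 * h - (i + 1) := by omega
    rw [e]; exact this
  · intro hg m hm
    have h0 : X ^ m * gam1 a c ∈ degreeLT ℂ (2 * h - 1) := by
      by_cases hi : 2 * h - 1 - i = 0
      · rw [hi] at hg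
        have : gam1 a c = 0 := by
          rw [mem_degreeLT] at hg
          simpa [degree_lt_iff_coeff_zero, Polynomial.ext_iff] using hg
        rw [this, mul_zero]; exact zero_mem _
      · have := X_pow_mul_mem (m := m) hg
        exact degreeLT_mono (by omega) this
    have h1 : X ^ m * gam1 a c ∈ degreeLT ℂ (2 * h) := degreeLT_mono (by omega) h0
    have h2 := eq_tw a h1
    rw [← tw_coeff, ← h2]
    rw [mem_degreeLT, degree_lt_iff_coeff_zero] at h0
    exact h0 _ le_rfl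

variable {a}

lemma Dk_eval_eq_zero {k m : Fin h} (hkm : m ≠ k) : (X - C (a k)) ∣ Dk a m := by
  refine Finset.dvd_prod_of_mem (fun m => X - C (a m)) ?_
  exact mem_erase.mpr ⟨hkm.symm, mem_univ _⟩

lemma gam1_eval (k : Fin h) (c : (Fin h → ℂ) × (Fin h → ℂ)) :
    (gam1 a c).eval (a k) = c.2 k * ((Dk a k).eval (a k)) ^ 2 := by
  rw [gam1_apply, eval_finsetSum, Finset.sum_eq_single k]
  · simp
  · intro m _ hmk
    obtain ⟨R, hR⟩ := Dk_eval_eq_zero (a := a) hmk
    rw [hR]; simp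
  · simp

lemma gam1_deriv_eval (k : Fin h) (c : (Fin h → ℂ) × (Fin h → ℂ)) :
    (derivative (gam1 a c)).eval (a k) = c.1 k * ((Dk a k).eval (a k)) ^ 2 +
      c.2 k * (2 * (Dk a k).eval (a k) * (derivative (Dk a k)).eval (a k)) := by
  rw [gam1_apply, derivative_sum, eval_finsetSum, Finset.sum_eq_single k]
  · simp [derivative_mul, derivative_pow]
  · intro m _ hmk
    obtain ⟨R, hR⟩ := Dk_eval_eq_zero (a := a) hmk
    rw [hR]; simp [derivative_mul, derivative_pow]
  · simp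

lemma gam1_injective (ha : Function.Injective a) : Function.Injective (gam1 a) := by
  rw [injective_iff_map_eq_zero]
  intro c hc
  have h2 : c.2 = 0 := by
    funext k
    have := gam1_eval (a := a) k c
    rw [hc, eval_zero] at this
    have h3 := mul_eq_zero.mp this.symm
    exact h3.resolve_right (pow_ne_zero 2 (Dk_eval_ne ha k))
  have h1 : c.1 = 0 := by
    funext k
    have := gam1_deriv_eval (a := a) k c
    rw [hc, derivative_zero, eval_zero, h2, Pi.zero_apply, zero_mul, add_zero] at this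
    have h3 := mul_eq_zero.mp this.symm
    exact h3.resolve_right (pow_ne_zero 2 (Dk_eval_ne ha k))
  exact Prod.ext h1 h2

lemma gam1_surj (ha : Function.Injective a) {P : ℂ[X]} (hP : P ∈ degreeLT ℂ (2 * h)) :
    ∃ c, gam1 a c = P := by
  let δ : Fin h → ℂ := fun k => (Dk a k).eval (a k)
  let δ' : Fin h → ℂ := fun k => (derivative (Dk a k)).eval (a k)
  let c2 : Fin h → ℂ := fun k => P.eval (a k) / δ k ^ 2
  let c1 : Fin h → ℂ := fun k => ((derivative P).eval (a k) - c2 k * (2 * δ k * δ' k)) / δ k ^ 2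
  refine ⟨(c1, c2), ?_⟩
  have hδ : ∀ k, δ k ^ 2 ≠ 0 := fun k => pow_ne_zero 2 (Dk_eval_ne ha k)
  have h1 : DD a ∣ gam1 a (c1, c2) - P := by
    rw [DD_dvd_iff ha]
    intro k
    rw [eval_sub, derivative_sub, eval_sub, gam1_eval, gam1_deriv_eval]
    constructor
    · show c2 k * δ k ^ 2 - _ = 0
      simp only [c2]
      rw [div_mul_cancel₀ _ (hδ k), sub_self]
    · show c1 k * δ k ^ 2 + c2 k * (2 * δ k * δ' k) - _ = 0
      simp only [c1]
      rw [div_mul_cancel₀ _ (hδ k)]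
      ring
  exact sub_eq_zero.mp (eq_zero_of_DD_dvd (sub_mem (gam1_mem a _) hP) h1)

end
end FP97
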