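import Mathlib

namespace FP97
noncomputable section
open Polynomial Finset Module

section orth
variable {ι : Type*} [Fintype ι] [DecidableEq ι]

/-- the orthogonal complement for the standard pairing on `ι → ℂ` -/
def orth (S : Submodule ℂ (ι → ℂ)) : Submodule ℂ (ι → ℂ) where
  carrier := {y | ∀ x ∈ S, ∑ i, y i * x i = 0}
  add_mem' := by
    intro y z hy hz x hx
    have h1 := hy x hx
    have h2 := hz x hx
    simp only [Pi.add_apply, add_mul, Finset.sum_add_distrib, h1, h2, add_zero]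
  zero_mem' := by intro x _; simp
  smul_mem' := by
    intro c y hy x hx
    have h1 := hy x hx
    simp only [Pi.smul_apply, smul_eq_mul, mul_assoc, ← Finset.mul_sum, h1, mul_zero]

omit [DecidableEq ι] in
lemma mem_orth {S : Submodule ℂ (ι → ℂ)} {y : ι → ℂ} :
    y ∈ orth S ↔ ∀ x ∈ S, ∑ i, y i * x i = 0 := Iff.rfl

lemma toDual_apply' (x y : ι → ℂ) : (Pi.basisFun ℂ ι).toDual x y = ∑ i, y i * x i := by
  conv_lhs => rw [← (Pi.basisFun ℂ ι).sum_repr y]
  rw [map_sum]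
  refine Finset.sum_congr rfl fun i _ => ?_
  rw [map_smul, Pi.basisFun_repr, Module.Basis.toDual_apply_left, Pi.basisFun_repr, smul_eq_mul]

lemma finrank_orth (S : Submodule ℂ (ι → ℂ)) :
    finrank ℂ S + finrank ℂ (orth S) = Fintype.card ι := by
  have h1 := Subspace.finrank_add_finrank_dualCoannihilator_eq
    (K := ℂ) (V := ι → ℂ) (S.map ((Pi.basisFun ℂ ι).toDualEquiv : (ι → ℂ) →ₗ[ℂ] Dual ℂ (ι → ℂ)))
  have h2 : (S.map ((Pi.basisFun ℂ ι).toDualEquiv : (ι → ℂ) →ₗ[ℂ] Dual ℂ (ι → ℂ))).dualCoannihilator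
      = orth S := by
    ext y
    rw [Submodule.mem_dualCoannihilator, mem_orth]
    constructor
    · intro h x hx
      have := h ((Pi.basisFun ℂ ι).toDualEquiv x) (Submodule.mem_map_of_mem hx)
      rw [Module.Basis.toDualEquiv_apply, toDual_apply'] at this
      exact this
    · rintro h _ ⟨x, hx, rfl⟩
      have := h x hx
      simp only [LinearEquiv.coe_coe, Module.Basis.toDualEquiv_apply, toDual_apply']
      exact this
  rw [h2, LinearEquiv.finrank_map_eq, Module.finrank_fintype_fun_eq_card] at h1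
  exact h1

lemma mem_of_orth {S : Submodule ℂ (ι → ℂ)} {x : ι → ℂ}
    (h : ∀ y ∈ orth S, ∑ i, y i * x i = 0) : x ∈ S := by
  by_contra hx
  obtain ⟨f, hf, hS⟩ := Submodule.exists_le_ker_of_notMem hx
  have key : ∀ z : ι → ℂ, f z = ∑ i, f (Pi.single i 1) * z i := by
    intro z
    rw [LinearMap.pi_apply_eq_sum_univ f z]
    refine Finset.sum_congr rfl fun i _ => ?_
    rw [smul_eq_mul, mul_comm]
    congr 2
    ext j
    simp [Pi.single_apply, eq_comm]
  refine hf ?_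
  rw [key]
  refine h (fun i => f (Pi.single i 1)) ?_
  intro z hz
  rw [← key]
  exact hS hz

end orth

/-! ### products of linear factors -/

lemma sq_dvd_iff (b : ℂ) (G : ℂ[X]) :
    (X - C b) ^ 2 ∣ G ↔ G.eval b = 0 ∧ (derivative G).eval b = 0 := by
  constructor
  · rintro ⟨H, rfl⟩
    constructor
    · simp
    · simp [derivative_mul, derivative_pow]
  · rintro ⟨h1, h2⟩
    obtain ⟨H, rfl⟩ := dvd_iff_isRoot.mpr h1
    simp only [derivative_mul, derivative_sub, derivative_X, derivative_C, sub_zero, one_mul,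
      eval_add, eval_mul, eval_sub, eval_X, eval_C, sub_self, zero_mul, add_zero] at h2
    obtain ⟨H', rfl⟩ := dvd_iff_isRoot.mpr h2
    exact ⟨H', by ring⟩

lemma prod_pow_dvd {ι : Type*} (s : Finset ι) (a : ι → ℂ) (ha : Set.InjOn a s) (t : ι → ℕ)
    (G : ℂ[X]) : (∏ k ∈ s, (X - C (a k)) ^ (t k)) ∣ G ↔ ∀ k ∈ s, (X - C (a k)) ^ (t k) ∣ G := by
  constructor
  · intro h k hk
    exact (Finset.dvd_prod_of_mem (fun k => (X - C (a k)) ^ (t k)) hk).trans h
  · intro h
    refine Finset.prod_dvd_of_coprime ?_ h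
    intro i hi j hj hij
    have h0 : a i - a j ≠ 0 := sub_ne_zero.mpr fun h => hij (ha hi hj h)
    have h1 : IsCoprime (X - C (a i)) (X - C (a j)) := isCoprime_X_sub_C_of_isUnit_sub h0.isUnit
    exact IsCoprime.pow h1

lemma natDegree_prod_pow {ι : Type*} (s : Finset ι) (a : ι → ℂ) (t : ι → ℕ) :
    (∏ k ∈ s, (X - C (a k)) ^ (t k)).natDegree = ∑ k ∈ s, t k := by
  rw [natDegree_prod_of_monic _ _ fun _ _ => (monic_X_sub_C _).pow _]
  refine Finset.sum_congr rfl fun k _ => ?_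
  rw [(monic_X_sub_C _).natDegree_pow, natDegree_X_sub_C, mul_one]

lemma monic_prod_pow {ι : Type*} (s : Finset ι) (a : ι → ℂ) (t : ι → ℕ) :
    (∏ k ∈ s, (X - C (a k)) ^ (t k)).Monic :=
  monic_prod_of_monic _ _ fun _ _ => (monic_X_sub_C _).pow _

/-- the product of the `X - b`, `b ∈ B`. -/
def MB (B : Finset ℂ) : ℂ[X] := ∏ b ∈ B, (X - C b)

lemma MB_monic (B : Finset ℂ) : (MB B).Monic := monic_prod_of_monic _ _ fun _ _ => (monic_X_sub_C _)

lemma natDegree_MB (B : Finset ℂ) : (MB B).natDegree = B.card := by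
  rw [MB, natDegree_prod_of_monic _ _ fun _ _ => (monic_X_sub_C _)]
  simp

lemma MB_dvd_iff (B : Finset ℂ) (G : ℂ[X]) : MB B ∣ G ↔ ∀ b ∈ B, G.eval b = 0 := by
  have := prod_pow_dvd B (fun b => b) (fun x _ y _ h => h) (fun _ => 1) G
  simp only [pow_one] at this
  rw [MB, this]
  simp only [dvd_iff_isRoot, IsRoot.def]

lemma MB_sq_dvd_iff (B : Finset ℂ) (G : ℂ[X]) :
    MB B ^ 2 ∣ G ↔ ∀ b ∈ B, G.eval b = 0 ∧ (derivative G).eval b = 0 := by
  have := prod_pow_dvd B (fun b => b) (fun x _ y _ h => h) (fun _ => 2) G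
  rw [MB, ← Finset.prod_pow, this]
  simp only [sq_dvd_iff]

/-- polynomials of degree `< N` divisible by `M` -/
def mults (M : ℂ[X]) (N : ℕ) : Submodule ℂ ℂ[X] where
  carrier := {P | P ∈ degreeLT ℂ N ∧ M ∣ P}
  add_mem' := fun h1 h2 => ⟨add_mem h1.1 h2.1, dvd_add h1.2 h2.2⟩
  zero_mem' := ⟨zero_mem _, dvd_zero _⟩
  smul_mem' := fun c _ h => ⟨Submodule.smul_mem _ _ h.1, dvd_smul_of_dvd c h.2⟩

lemma mem_mults {M : ℂ[X]} {N : ℕ} {P : ℂ[X]} : P ∈ mults M N ↔ P ∈ degreeLT ℂ N ∧ M ∣ P := Iff.rfl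

lemma finrank_degreeLT (N : ℕ) : finrank ℂ (degreeLT ℂ N) = N := by
  rw [(degreeLTEquiv ℂ N).finrank_eq, Module.finrank_fintype_fun_eq_card, Fintype.card_fin]

lemma mem_degreeLT_mul {M : ℂ[X]} (hM : M ≠ 0) {N : ℕ} {P : ℂ[X]} :
    M * P ∈ degreeLT ℂ N ↔ P ∈ degreeLT ℂ (N - M.natDegree) := by
  rw [mem_degreeLT, mem_degreeLT]
  by_cases hP : P = 0
  · subst hP; simp [bot_lt_iff_ne_bot]
  · rw [degree_eq_natDegree (mul_ne_zero hM hP), degree_eq_natDegree hP, natDegree_mul hM hP]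
    norm_cast
    omega

lemma finrank_mults {M : ℂ[X]} (hM : M ≠ 0) (N : ℕ) :
    finrank ℂ (mults M N) = N - M.natDegree := by
  have h : mults M N = (degreeLT ℂ (N - M.natDegree)).map (LinearMap.mulLeft ℂ M) := by
    ext P
    rw [mem_mults, Submodule.mem_map]
    constructor
    · rintro ⟨h1, ⟨R, rfl⟩⟩
      exact ⟨R, (mem_degreeLT_mul hM).mp h1, LinearMap.mulLeft_apply ..⟩
    · rintro ⟨R, hR, rfl⟩
      rw [LinearMap.mulLeft_apply]
      exact ⟨(mem_degreeLT_mul hM).mpr hR, dvd_mul_right _ _⟩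
  have hinj : Function.Injective (LinearMap.mulLeft ℂ M) := fun x y hxy => mul_left_cancel₀ hM hxy
  rw [h, ← (Submodule.equivMapOfInjective _ hinj (degreeLT ℂ (N - M.natDegree))).finrank_eq,
    finrank_degreeLT]

end
end FP97
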