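import Pool.Agent.helper97.FP.Lin

namespace FP97
noncomputable section
open Polynomial Finset Module

/-- the polynomial with given coefficients -/
def toP (N : ℕ) : (Fin N → ℂ) →ₗ[ℂ] ℂ[X] :=
  (degreeLT ℂ N).subtype ∘ₗ (degreeLTEquiv ℂ N).symm.toLinearMap

lemma toP_apply (N : ℕ) (x : Fin N → ℂ) : toP N x = ∑ l : Fin N, monomial (l : ℕ) (x l) := rfl

lemma toP_mem (N : ℕ) (x : Fin N → ℂ) : toP N x ∈ degreeLT ℂ N :=
  ((degreeLTEquiv ℂ N).symm x).2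

lemma toP_injective (N : ℕ) : Function.Injective (toP N) := by
  intro x y h
  exact (degreeLTEquiv ℂ N).symm.injective (Subtype.ext h)

lemma exists_toP {N : ℕ} {P : ℂ[X]} (h : P ∈ degreeLT ℂ N) : ∃ x, toP N x = P := by
  refine ⟨degreeLTEquiv ℂ N ⟨P, h⟩, ?_⟩
  show (((degreeLTEquiv ℂ N).symm (degreeLTEquiv ℂ N ⟨P, h⟩) : degreeLT ℂ N) : ℂ[X]) = P
  rw [LinearEquiv.symm_apply_apply]

lemma toP_coeff {N : ℕ} (x : Fin N → ℂ) (l : Fin N) : (toP N x).coeff l = x l := by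
  rw [toP_apply, finsetSum_coeff]
  rw [Finset.sum_eq_single l]
  · simp
  · intro b _ hb
    rw [coeff_monomial, if_neg]
    intro h; exact hb (Fin.ext h)
  · simp

lemma toP_eval {N : ℕ} (x : Fin N → ℂ) (b : ℂ) :
    (toP N x).eval b = ∑ l : Fin N, x l * b ^ (l : ℕ) := by
  rw [toP_apply, eval_finsetSum]
  simp

lemma toP_derivative_eval {N : ℕ} (x : Fin N → ℂ) (b : ℂ) :
    (derivative (toP N x)).eval b = ∑ l : Fin N, x l * ((l : ℕ) * b ^ ((l : ℕ) - 1)) := by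
  rw [toP_apply, derivative_sum, eval_finsetSum]
  refine Finset.sum_congr rfl fun l _ => ?_
  rw [derivative_monomial, eval_monomial]
  ring

/-- (b^l)_{l ≤ j} -/
def nu (j : ℕ) (b : ℂ) : Fin (j+1) → ℂ := fun l => b ^ (l : ℕ)
/-- derivative of `nu` -/
def nu' (j : ℕ) (b : ℂ) : Fin (j+1) → ℂ := fun l => ((l : ℕ) : ℂ) * b ^ ((l : ℕ) - 1)

def S1 (j : ℕ) (B : Finset ℂ) : Submodule ℂ (Fin (j+1) → ℂ) := Submodule.span ℂ (nu j '' B)
def S2 (j : ℕ) (B : Finset ℂ) : Submodule ℂ (Fin (j+1) → ℂ) :=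
  Submodule.span ℂ (nu j '' B ∪ nu' j '' B)

lemma nu_mem_S1 {j : ℕ} {B : Finset ℂ} {b : ℂ} (hb : b ∈ B) : nu j b ∈ S1 j B :=
  Submodule.subset_span ⟨b, hb, rfl⟩
lemma nu_mem_S2 {j : ℕ} {B : Finset ℂ} {b : ℂ} (hb : b ∈ B) : nu j b ∈ S2 j B :=
  Submodule.subset_span (Or.inl ⟨b, hb, rfl⟩)
lemma nu'_mem_S2 {j : ℕ} {B : Finset ℂ} {b : ℂ} (hb : b ∈ B) : nu' j b ∈ S2 j B :=
  Submodule.subset_span (Or.inr ⟨b, hb, rfl⟩)
lemma S1_le_S2 (j : ℕ) (B : Finset ℂ) : S1 j B ≤ S2 j B :=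
  Submodule.span_mono Set.subset_union_left

/-- a linear functional vanishes on a span if it vanishes on generators -/
lemma sum_mul_eq_zero_of_span {N : ℕ} {s : Set (Fin N → ℂ)} {y x : Fin N → ℂ}
    (h : ∀ v ∈ s, ∑ i, y i * v i = 0) (hx : x ∈ Submodule.span ℂ s) : ∑ i, y i * x i = 0 := by
  induction hx using Submodule.span_induction with
  | mem v hv => exact h v hv
  | zero => simp
  | add a b _ _ ha hb => simp only [Pi.add_apply, mul_add, Finset.sum_add_distrib, ha, hb, add_zero]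
  | smul c a _ ha =>
    have : ∀ i, y i * (c • a) i = c * (y i * a i) := fun i => by
      simp only [Pi.smul_apply, smul_eq_mul]; ring
    simp only [this, ← Finset.mul_sum, ha, mul_zero]

lemma mem_orth_S1 {j : ℕ} {B : Finset ℂ} (y : Fin (j+1) → ℂ) :
    y ∈ orth (S1 j B) ↔ MB B ∣ toP (j+1) y := by
  rw [MB_dvd_iff, mem_orth]
  constructor
  · intro h b hb
    rw [toP_eval]
    exact h _ (nu_mem_S1 hb)
  · intro h x hx
    refine sum_mul_eq_zero_of_span ?_ hx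
    rintro _ ⟨b, hb, rfl⟩
    have := h b hb
    rwa [toP_eval] at this

lemma mem_orth_S2 {j : ℕ} {B : Finset ℂ} (y : Fin (j+1) → ℂ) :
    y ∈ orth (S2 j B) ↔ MB B ^ 2 ∣ toP (j+1) y := by
  rw [MB_sq_dvd_iff, mem_orth]
  constructor
  · intro h b hb
    rw [toP_eval, toP_derivative_eval]
    exact ⟨h _ (nu_mem_S2 hb), h _ (nu'_mem_S2 hb)⟩
  · intro h x hx
    refine sum_mul_eq_zero_of_span ?_ hx
    rintro _ (⟨b, hb, rfl⟩ | ⟨b, hb, rfl⟩)
    · have := (h b hb).1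
      rwa [toP_eval] at this
    · have := (h b hb).2
      rwa [toP_derivative_eval] at this

lemma map_orth_eq {j : ℕ} {M : ℂ[X]} {S : Submodule ℂ (Fin (j+1) → ℂ)}
    (h : ∀ y, y ∈ orth S ↔ M ∣ toP (j+1) y) : (orth S).map (toP (j+1)) = mults M (j+1) := by
  ext P
  rw [Submodule.mem_map, mem_mults]
  constructor
  · rintro ⟨y, hy, rfl⟩
    exact ⟨toP_mem _ _, (h y).mp hy⟩
  · rintro ⟨h1, h2⟩
    obtain ⟨y, rfl⟩ := exists_toP h1
    exact ⟨y, (h y).mpr h2, rfl⟩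

lemma finrank_of_orth {j : ℕ} {M : ℂ[X]} (hM : M ≠ 0) {S : Submodule ℂ (Fin (j+1) → ℂ)}
    (h : ∀ y, y ∈ orth S ↔ M ∣ toP (j+1) y) : finrank ℂ S = min (j+1) M.natDegree := by
  have h1 := finrank_orth S
  rw [Fintype.card_fin] at h1
  have h2 := (Submodule.equivMapOfInjective _ (toP_injective (j+1)) (orth S)).finrank_eq
  rw [map_orth_eq h, finrank_mults hM] at h2
  omega

lemma mem_iff_of_orth {j : ℕ} {M : ℂ[X]} {S : Submodule ℂ (Fin (j+1) → ℂ)}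
    (h : ∀ y, y ∈ orth S ↔ M ∣ toP (j+1) y) (x : Fin (j+1) → ℂ) :
    x ∈ S ↔ ∀ G ∈ mults M (j+1), ∑ l : Fin (j+1), G.coeff l * x l = 0 := by
  constructor
  · rintro hx G ⟨hG1, hG2⟩
    obtain ⟨y, rfl⟩ := exists_toP hG1
    have := (h y).mpr hG2 x hx
    simpa only [toP_coeff] using this
  · intro hG
    refine mem_of_orth fun y hy => ?_
    have := hG (toP (j+1) y) ⟨toP_mem _ _, (h y).mp hy⟩
    simpa only [toP_coeff] using this

lemma finrank_S1 (j : ℕ) (B : Finset ℂ) : finrank ℂ (S1 j B) = min (j+1) B.card := by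
  rw [finrank_of_orth (MB_monic B).ne_zero mem_orth_S1, natDegree_MB]

lemma finrank_S2 (j : ℕ) (B : Finset ℂ) : finrank ℂ (S2 j B) = min (j+1) (2 * B.card) := by
  rw [finrank_of_orth (pow_ne_zero 2 (MB_monic B).ne_zero) mem_orth_S2,
    (MB_monic B).natDegree_pow, natDegree_MB]

lemma mem_S1_iff (j : ℕ) (B : Finset ℂ) (x : Fin (j+1) → ℂ) :
    x ∈ S1 j B ↔ ∀ G ∈ mults (MB B) (j+1), ∑ l : Fin (j+1), G.coeff l * x l = 0 :=
  mem_iff_of_orth mem_orth_S1 x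

lemma mem_S2_iff (j : ℕ) (B : Finset ℂ) (x : Fin (j+1) → ℂ) :
    x ∈ S2 j B ↔ ∀ G ∈ mults (MB B ^ 2) (j+1), ∑ l : Fin (j+1), G.coeff l * x l = 0 :=
  mem_iff_of_orth mem_orth_S2 x

end
end FP97
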